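import Pool.Agent.Helper8.NS.Alg

/-! The kernel check for `q ≥ 5` (about 15 s, 4.2 GB). -/

namespace Helper8.NS

set_option maxRecDepth 100000 in
theorem chk56 : chkL 17 tl25 615 (Nat.shiftRight (red (Nat.add ee5 ee6)) 448) 381253 619189
    = true := by
  decide +kernel

end Helper8.NS
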