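import Pool.Agent.Helper8.NS.Spec5
import Pool.Agent.Helper8.NS.Chk4
import Pool.Agent.Helper8.NS.Chk56

/-! MODULE C for MP_56bc24_co: numeric bounds for the coefficients of `EE X 4 640` and
`EE X 5 640 + E6 X 640` against any sequence `t` with the table `tl25` for `g < 25`,
which continues as a Fibonacci sequence. -/

namespace Helper8.NS
open Helper23.NS

/-- `q = 4` -/
theorem C4 (t : ℕ → ℕ) (h0 : ∀ g < 25, t g = tl25.getD g 0)
    (ht : ∀ g, 23 ≤ g → t (g + 2) = t (g + 1) + t g)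
    (hB : ∀ j ≤ 640, (EE (Polynomial.X : Polynomial ℕ) 4 640).coeff j < 2 ^ 448) :
    ∀ g, 1 ≤ g → g ≤ 640 →
      100 * (EE (Polynomial.X : Polynomial ℕ) 4 640).coeff g ≤ 80 * t (g - 1) := by
  refine final 80 t h0 ht ee4 _ (fun n hn => ?_) hB chk4
  rw [eval_EE, cast_EE, c_ee4 (hx_of hn)]

/-- `q ≥ 5` -/
theorem C56 (t : ℕ → ℕ) (h0 : ∀ g < 25, t g = tl25.getD g 0)
    (ht : ∀ g, 23 ≤ g → t (g + 2) = t (g + 1) + t g)
    (hB : ∀ j ≤ 640, (EE (Polynomial.X : Polynomial ℕ) 5 640 +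
      E6 (Polynomial.X : Polynomial ℕ) 640).coeff j < 2 ^ 448) :
    ∀ g, 1 ≤ g → g ≤ 640 →
      100 * (EE (Polynomial.X : Polynomial ℕ) 5 640 +
        E6 (Polynomial.X : Polynomial ℕ) 640).coeff g ≤ 17 * t (g - 1) := by
  refine final 17 t h0 ht (Nat.add ee5 ee6) _ (fun n hn => ?_) hB chk56
  rw [Polynomial.eval_add, eval_EE, eval_E6, Nat.cast_add, cast_EE, cast_E6, Nat.add_eq,
    Nat.cast_add, c_ee5 (hx_of hn), c_ee6 (hx_of hn)]

end Helper8.NS
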