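import Pool.Agent.Helper23.NS.Defs

/-! MODULE A for MP_56bc24_co: numerical semigroups of genus `g` correspond to Kunz words of
sum `g`. -/

namespace Helper8.NS
open Finset Helper23.NS

/-- Kunz coordinate of the residue `r` -/
def kz (w : List ℕ) (r : ℕ) : ℕ := if r = 0 then 0 else w.getD (r - 1) 0

/-- the set of numbers given by the word `w` -/
def Sw (w : List ℕ) : Set ℕ := {x | kz w (x % (w.length + 1)) ≤ x / (w.length + 1)}

theorem sum_getD : ∀ w : List ℕ, ∑ i ∈ range w.length, w.getD i 0 = w.sum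
  | [] => by simp
  | a :: w => by
    rw [List.length_cons, Finset.sum_range_succ', List.sum_cons]
    simp only [List.getD_cons_succ, List.getD_cons_zero]
    rw [sum_getD w, add_comm]

theorem sum_kz (w : List ℕ) : ∑ r ∈ range (w.length + 1), kz w r = w.sum := by
  rw [Finset.sum_range_succ', ← sum_getD]
  simp [kz]

/-- the gaps of `Sw w` as a finset -/
def gaps (w : List ℕ) : Finset ℕ :=
  ((range (w.length + 1)).sigma fun r => range (kz w r)).image
    fun p : (_ : ℕ) × ℕ => p.2 * (w.length + 1) + p.1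

theorem gaps_card (w : List ℕ) : (gaps w).card = w.sum := by
  unfold gaps
  rw [Finset.card_image_of_injOn, Finset.card_sigma]
  · simp only [Finset.card_range]; exact sum_kz w
  · rintro ⟨r, q⟩ h1 ⟨r', q'⟩ h2 h
    simp only [Finset.coe_sigma, Set.mem_sigma_iff, Finset.coe_range, Set.mem_Iio] at h1 h2
    simp only at h
    have hr : r = r' := by
      have := congrArg (· % (w.length + 1)) h
      simp only [Nat.mul_add_mod_self_right] at this
      rwa [Nat.mod_eq_of_lt h1.1, Nat.mod_eq_of_lt h2.1] at this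
    subst hr
    have hq : q = q' := by
      have : q * (w.length + 1) = q' * (w.length + 1) := by omega
      exact Nat.eq_of_mul_eq_mul_right (by omega) this
    rw [hq]

theorem mem_gaps (w : List ℕ) (x : ℕ) : x ∈ gaps w ↔ x ∉ Sw w := by
  unfold gaps Sw
  simp only [Finset.mem_image, Finset.mem_sigma, Finset.mem_range, Set.mem_ofPred_eq, not_le]
  constructor
  · rintro ⟨⟨r, q⟩, ⟨h1, h2⟩, rfl⟩
    simp only at h1 h2 ⊢
    rw [Nat.mul_add_mod_self_right, Nat.mod_eq_of_lt h1]
    rwa [show (q * (w.length + 1) + r) / (w.length + 1) = q by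
      rw [mul_comm, Nat.mul_add_div (by omega), Nat.div_eq_of_lt h1, add_zero]]
  · intro h
    exact ⟨⟨x % (w.length + 1), x / (w.length + 1)⟩, ⟨Nat.mod_lt _ (by omega), h⟩,
      by simp only; rw [mul_comm]; exact Nat.div_add_mod x _⟩

theorem compl_Sw (w : List ℕ) : (Sw w)ᶜ = (gaps w : Set ℕ) := by
  ext x
  rw [Set.mem_compl_iff, Finset.mem_coe, mem_gaps]

theorem ncard_Sw (w : List ℕ) : (Sw w)ᶜ.Finite ∧ (Sw w)ᶜ.ncard = w.sum := by
  rw [compl_Sw]
  exact ⟨Finset.finite_toSet _, by rw [Set.ncard_coe_finset, gaps_card]⟩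

theorem mem_Sw (w : List ℕ) (q r : ℕ) (hr : r < w.length + 1) :
    q * (w.length + 1) + r ∈ Sw w ↔ kz w r ≤ q := by
  unfold Sw
  rw [Set.mem_ofPred_eq, Nat.mul_add_mod_self_right, Nat.mod_eq_of_lt hr,
    show (q * (w.length + 1) + r) / (w.length + 1) = q by
      rw [mul_comm, Nat.mul_add_div (by omega), Nat.div_eq_of_lt hr, add_zero]]

theorem Sw_add (w : List ℕ) (hw : IsKunz w) (a b : ℕ) (ha : a ∈ Sw w) (hb : b ∈ Sw w) :
    a + b ∈ Sw w := by
  have key : ∀ m q r, 0 < m → (m * q + r) = q * m + r := fun m q r _ => by ring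
  set m := w.length + 1 with hm
  have ea := Nat.div_add_mod a m
  have eb := Nat.div_add_mod b m
  have hra := Nat.mod_lt a (show m > 0 by omega)
  have hrb := Nat.mod_lt b (show m > 0 by omega)
  have ha' : kz w (a % m) ≤ a / m := ha
  have hb' : kz w (b % m) ≤ b / m := hb
  generalize a / m = qa at *
  generalize a % m = ra at *
  generalize b / m = qb at *
  generalize b % m = rb at *
  subst ea eb
  by_cases h : ra + rb < m
  · rw [show m * qa + ra + (m * qb + rb) = (qa + qb) * m + (ra + rb) by ring, mem_Sw w _ _ h]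
    refine le_trans ?_ (add_le_add ha' hb')
    unfold kz
    by_cases h1 : ra = 0
    · subst h1; simp
    · by_cases h2 : rb = 0
      · subst h2; simp
      · rw [if_neg h1, if_neg h2, if_neg (by omega)]
        have := hw.k1 (ra - 1) (rb - 1) (by omega)
        rwa [show ra - 1 + (rb - 1) + 1 = ra + rb - 1 by omega] at this
  · rw [show m * qa + ra + (m * qb + rb) = (qa + qb + 1) * m + (ra + rb - m) by
      have : ra + rb = m + (ra + rb - m) := by omega
      calc m * qa + ra + (m * qb + rb) = m * qa + m * qb + (ra + rb) := by ring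
        _ = m * qa + m * qb + (m + (ra + rb - m)) := by rw [← this]
        _ = _ := by ring, mem_Sw w _ _ (by omega)]
    refine le_trans ?_ (Nat.add_le_add_right (add_le_add ha' hb') 1)
    unfold kz
    by_cases h1 : ra + rb - m = 0
    · rw [if_pos h1]; omega
    · rw [if_neg h1, if_neg (by omega), if_neg (by omega)]
      have := hw.k2 (ra - 1) (rb - 1) (by omega) (by omega) (by omega)
      rwa [show ra - 1 + (rb - 1) - w.length = ra + rb - m - 1 by omega] at this

theorem Sw_mem_nsg {w : List ℕ} {g : ℕ} (h : w ∈ kword g) : Sw w ∈ nsg g := by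
  refine ⟨?_, fun a ha b hb => Sw_add w h.1 a b ha hb, (ncard_Sw w).1, ?_⟩
  · show kz w (0 % _) ≤ 0 / _
    simp [kz]
  · rw [(ncard_Sw w).2]; exact h.2

theorem len_mem (w : List ℕ) : w.length + 1 ∈ Sw w := by
  have := (mem_Sw w 1 0 (by omega)).mpr (by simp [kz])
  simpa using this

theorem small_notMem (w : List ℕ) (hw : IsKunz w) (x : ℕ) (h0 : 0 < x) (h : x < w.length + 1) :
    x ∉ Sw w := by
  intro hx
  have := (mem_Sw w 0 x h).mp (by simpa using hx)
  unfold kz at this
  rw [if_neg (by omega)] at this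
  have hlt : x - 1 < w.length := by omega
  have h2 := hw.pos _ (List.getElem_mem hlt)
  rw [List.getD_eq_getElem _ _ hlt] at this
  omega

theorem Sw_inj {w w' : List ℕ} (hw : IsKunz w) (hw' : IsKunz w') (h : Sw w = Sw w') : w = w' := by
  have hl : w.length = w'.length := by
    by_contra hne
    rcases Nat.lt_or_gt_of_ne hne with h1 | h1
    · exact small_notMem w' hw' (w.length + 1) (by omega) (by omega) (h ▸ len_mem w)
    · exact small_notMem w hw (w'.length + 1) (by omega) (by omega) (h ▸ len_mem w')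
  refine List.ext_getElem hl fun i h1 h2 => ?_
  have key : ∀ q, kz w (i + 1) ≤ q ↔ kz w' (i + 1) ≤ q := by
    intro q
    rw [← mem_Sw w q (i + 1) (by omega), ← mem_Sw w' q (i + 1) (by omega), h, hl]
  have h3 : kz w (i + 1) = kz w' (i + 1) :=
    le_antisymm ((key _).mpr le_rfl) ((key _).mp le_rfl)
  unfold kz at h3
  rw [if_neg (by omega), if_neg (by omega), Nat.add_sub_cancel, List.getD_eq_getElem _ _ h1,
    List.getD_eq_getElem _ _ h2] at h3
  exact h3

theorem exists_word {S : Set ℕ} {g : ℕ} (hS : S ∈ nsg g) : ∃ w ∈ kword g, Sw w = S := by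
  classical
  obtain ⟨h0, hadd, hfin, hcard⟩ := hS
  obtain ⟨N, hN⟩ : ∃ N, ∀ x, N ≤ x → x ∈ S := by
    obtain ⟨N, hN⟩ := hfin.bddAbove
    refine ⟨N + 1, fun x hx => ?_⟩
    by_contra hc
    have := hN hc
    omega
  have hex : ∃ m, 0 < m ∧ m ∈ S := ⟨N + 1, by omega, hN _ (by omega)⟩
  set m := Nat.find hex with hm
  have hm0 : 0 < m := (Nat.find_spec hex).1
  have hmS : m ∈ S := (Nat.find_spec hex).2
  have hmin : ∀ x, 0 < x → x < m → x ∉ S := fun x h1 h2 h3 => Nat.find_min hex h2 ⟨h1, h3⟩
  have hmul : ∀ k x, x ∈ S → k * m + x ∈ S := by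
    intro k x hx
    induction k with
    | zero => simpa using hx
    | succ k ih =>
      rw [show (k + 1) * m + x = (k * m + x) + m by ring]
      exact hadd _ ih _ hmS
  have hk : ∀ r, ∃ k, k * m + r ∈ S := fun r => ⟨N, hN _ (by nlinarith)⟩
  let κ : ℕ → ℕ := fun r => Nat.find (hk r)
  have hκ : ∀ r q, κ r ≤ q ↔ q * m + r ∈ S := by
    intro r q
    constructor
    · intro h
      have h1 := Nat.find_spec (hk r)
      have h2 := hmul (q - κ r) _ h1
      have h3 : (q - κ r) * m + (κ r * m + r) = q * m + r := by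
        rw [← add_assoc, ← add_mul, Nat.sub_add_cancel h]
      rwa [← h3]
    · intro h
      exact Nat.find_min' (hk r) h
  have hκ0 : κ 0 = 0 := Nat.le_zero.mp ((hκ 0 0).mpr (by simpa using h0))
  set w : List ℕ := List.ofFn fun i : Fin (m - 1) => κ (i + 1) with hw
  have hlen : w.length = m - 1 := by simp [hw]
  have hlen1 : w.length + 1 = m := by omega
  have hget : ∀ i, i < m - 1 → w.getD i 0 = κ (i + 1) := by
    intro i hi
    rw [List.getD_eq_getElem _ _ (by omega)]
    simp [hw]
  have hkz : ∀ r, r < m → kz w r = κ r := by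
    intro r hr
    unfold kz
    split_ifs with h
    · rw [h, hκ0]
    · rw [hget _ (by omega), show r - 1 + 1 = r by omega]
  have hSw : Sw w = S := by
    ext x
    have hx := Nat.div_add_mod x m
    have h1 : x = (x / m) * m + x % m := by rw [mul_comm]; exact hx.symm
    have h2 : x % m < m := Nat.mod_lt _ hm0
    unfold Sw
    rw [Set.mem_ofPred_eq, hlen1, hkz _ h2, hκ, ← h1]
  have hpos : ∀ r, 0 < r → r < m → 1 ≤ κ r := by
    intro r h1 h2
    by_contra h3
    have : κ r ≤ 0 := by omega
    rw [hκ, zero_mul, zero_add] at this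
    exact hmin r h1 h2 this
  refine ⟨w, ⟨⟨?_, ?_, ?_⟩, ?_⟩, hSw⟩
  · intro x hx
    rw [hw, List.mem_ofFn] at hx
    obtain ⟨i, rfl⟩ := hx
    exact hpos _ (by omega) (by omega)
  · intro i j hij
    rw [hget _ (by omega), hget _ (by omega), hget _ (by omega), hκ]
    have h1 := (hκ (i + 1) _).mp le_rfl
    have h2 := (hκ (j + 1) _).mp le_rfl
    have := hadd _ h1 _ h2
    rwa [show κ (i + 1) * m + (i + 1) + (κ (j + 1) * m + (j + 1))
      = (κ (i + 1) + κ (j + 1)) * m + (i + j + 1 + 1) by ring] at this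
  · intro i j hi hj hij
    rw [hget _ (by omega), hget _ (by omega), hget _ (by omega), hκ]
    have h1 := (hκ (i + 1) _).mp le_rfl
    have h2 := (hκ (j + 1) _).mp le_rfl
    have := hadd _ h1 _ h2
    rwa [show κ (i + 1) * m + (i + 1) + (κ (j + 1) * m + (j + 1))
      = (κ (i + 1) + κ (j + 1) + 1) * m + (i + j - w.length + 1) by
        have e : i + 1 + (j + 1) = m + (i + j - w.length + 1) := by omega
        calc κ (i + 1) * m + (i + 1) + (κ (j + 1) * m + (j + 1))
            = (κ (i + 1) + κ (j + 1)) * m + (i + 1 + (j + 1)) := by ring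
          _ = (κ (i + 1) + κ (j + 1)) * m + (m + (i + j - w.length + 1)) := by rw [e]
          _ = _ := by ring] at this
  · rw [← (ncard_Sw w).2, hSw, hcard]

/-- MODULE A -/
theorem nsg_ncard (g : ℕ) : (nsg g).ncard = (kword g).ncard := by
  symm
  refine Set.ncard_congr (fun w _ => Sw w) (fun w hw => Sw_mem_nsg hw)
    (fun w w' hw hw' h => Sw_inj hw.1 hw'.1 h) (fun S hS => ?_)
  obtain ⟨w, hw, h⟩ := exists_word hS
  exact ⟨w, hw, h⟩

end Helper8.NS
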