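import Pool.Agent.Helper8.NS.TAlg

/-! The kernel check for the T-words (about 8 s, 2 GB). -/

namespace Helper8.NS

/-- numbers of T-words of sum `s` that end in `3` -/
def cL : List ℕ := [0, 0, 0, 1, 0, 1, 3, 2, 4, 9, 12, 20, 32, 50, 84, 132, 208, 331, 526, 841, 1333,
  2145, 3401, 5314, 8396]

/-- the digits of `v` in base `2^32` are at least the entries of the list -/
def chkD : List ℕ → ℕ → Bool
  | [], _ => true
  | t :: ts, v => frc (Nat.land v (Nat.sub (Nat.pow 2 32) 1)) fun d =>
      frc (Nat.shiftRight v 32) fun v' => and (Nat.ble t d) (chkD ts v')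

set_option maxRecDepth 100000 in
theorem chkT : chkD cL (hh (2 ^ 32) 24 0 0 1) = true := by decide +kernel

set_option maxRecDepth 100000 in
theorem chkT1 : Nat.ble (hh 1 24 0 0 1) 200000 = true := by decide +kernel

end Helper8.NS
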