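import Pool.Agent.Helper23.NS.Defs
import Pool.Agent.Helper8.NS.ChkT

/-! MODULE B for MP_56bc24_co: words with letters `≤ 3`. -/

namespace Helper8.NS
open Finset Helper23.NS

/-! ### finiteness -/

/-- words of positive letters with sum `s` -/
def comps (s : ℕ) : Set (List ℕ) := {u | (∀ x ∈ u, 1 ≤ x) ∧ u.sum = s}

theorem comps_finite (s : ℕ) : (comps s).Finite := by
  refine (Set.finite_range (fun c : Composition s => c.blocks)).subset ?_
  rintro u ⟨h1, h2⟩
  exact ⟨⟨u, fun {i} hi => h1 i hi, h2⟩, rfl⟩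

theorem kword_finite (g : ℕ) : (kword g).Finite :=
  (comps_finite g).subset fun _ h => ⟨h.1.pos, h.2⟩

theorem tword_finite (g : ℕ) : (tword g).Finite :=
  (comps_finite g).subset fun _ h => ⟨fun x hx => (h.1.let13 x hx).1, h.2⟩

theorem rword_finite (g : ℕ) : (rword g).Finite :=
  (kword_finite g).subset fun _ h => ⟨h.1, h.2.1⟩

theorem getD_bd {w : List ℕ} (h : ∀ x ∈ w, 1 ≤ x ∧ x ≤ 3) {i : ℕ} (hi : i < w.length) :
    1 ≤ w.getD i 0 ∧ w.getD i 0 ≤ 3 := by
  rw [List.getD_eq_getElem _ _ hi]; exact h _ (List.getElem_mem hi)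

theorem isKunz_of_isT {w : List ℕ} (h : IsT w) : IsKunz w where
  pos x hx := (h.let13 x hx).1
  k1 := h.k1
  k2 i j hi hj hij := by
    have h1 := getD_bd h.let13 hi
    have h2 := getD_bd h.let13 hj
    have h3 := getD_bd h.let13 (show i + j - w.length < w.length by omega)
    omega

theorem kword_eq (g : ℕ) : kword g = tword g ∪ rword g := by
  ext w
  constructor
  · rintro ⟨h1, h2⟩
    by_cases h : ∃ x ∈ w, 4 ≤ x
    · exact Or.inr ⟨h1, h2, h⟩
    · push Not at h
      exact Or.inl ⟨⟨fun x hx => ⟨h1.pos x hx, by have := h x hx; omega⟩, h1.k1⟩, h2⟩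
  · rintro (⟨h1, h2⟩ | ⟨h1, h2, _⟩)
    · exact ⟨isKunz_of_isT h1, h2⟩
    · exact ⟨h1, h2⟩

theorem kword_disjoint (g : ℕ) : Disjoint (tword g) (rword g) := by
  rw [Set.disjoint_left]
  rintro w ⟨h1, _⟩ ⟨_, _, x, hx, h4⟩
  have := (h1.let13 x hx).2
  omega

theorem kword_ncard (g : ℕ) : (kword g).ncard = (tword g).ncard + (rword g).ncard := by
  rw [kword_eq, Set.ncard_union_eq (kword_disjoint g) (tword_finite g) (rword_finite g)]

/-! ### appending letters -/

theorem getD_append_left' (p : List ℕ) (a i : ℕ) (h : i < p.length) :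
    (p ++ [a]).getD i 0 = p.getD i 0 := by
  rw [List.getD_append _ _ _ _ h]

theorem getD_append_last (p : List ℕ) (a : ℕ) : (p ++ [a]).getD p.length 0 = a := by
  rw [List.getD_append_right _ _ _ _ le_rfl]; simp

/-- `3` may follow the word `p` -/
def Allowed (p : List ℕ) : Prop := ∀ i j, i + j + 1 = p.length → 3 ≤ p.getD i 0 + p.getD j 0

theorem isT_append {p : List ℕ} (hp : IsT p) {a : ℕ} (ha : 1 ≤ a ∧ a ≤ 3)
    (h : a ≤ 2 ∨ Allowed p) : IsT (p ++ [a]) where
  let13 x hx := by
    rw [List.mem_append, List.mem_singleton] at hx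
    rcases hx with hx | rfl
    · exact hp.let13 x hx
    · exact ha
  k1 i j hij := by
    rw [List.length_append, List.length_singleton] at hij
    rw [getD_append_left' p a i (by omega), getD_append_left' p a j (by omega)]
    by_cases h1 : i + j + 1 < p.length
    · rw [getD_append_left' p a _ h1]; exact hp.k1 i j h1
    · have h2 : i + j + 1 = p.length := by omega
      rw [h2, getD_append_last]
      rcases h with h | h
      · have h3 := getD_bd hp.let13 (show i < p.length by omega)
        have h4 := getD_bd hp.let13 (show j < p.length by omega)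
        omega
      · exact ha.2.trans (h i j h2)

/-- words `u` such that `p ++ u ++ [3]` is a T-word, by the sum of `u ++ [3]` -/
def X (p : List ℕ) (s : ℕ) : Set (List ℕ) := {u | IsT (p ++ u ++ [3]) ∧ u.sum + 3 = s}

theorem X_finite (p : List ℕ) (s : ℕ) : (X p s).Finite := by
  refine (comps_finite (s - 3)).subset ?_
  rintro u ⟨h1, h2⟩
  exact ⟨fun x hx => (h1.let13 x (by simp [hx])).1, by omega⟩

/-- counting with four disjoint injective images -/
theorem ncard_four {α β : Type*} {f1 f2 f3 : α → β} (i1 : Function.Injective f1)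
    (i2 : Function.Injective f2) (i3 : Function.Injective f3) (d12 : ∀ a b, f1 a ≠ f2 b)
    (d13 : ∀ a b, f1 a ≠ f3 b) (d23 : ∀ a b, f2 a ≠ f3 b) {A1 A2 A3 : Set α} {D Y : Set β}
    (hY : Y.Finite) (h1 : ∀ a ∈ A1, f1 a ∈ Y) (h2 : ∀ a ∈ A2, f2 a ∈ Y) (h3 : ∀ a ∈ A3, f3 a ∈ Y)
    (h4 : D ⊆ Y) (e1 : ∀ a ∈ A1, f1 a ∉ D) (e2 : ∀ a ∈ A2, f2 a ∉ D) (e3 : ∀ a ∈ A3, f3 a ∉ D) :
    A1.ncard + A2.ncard + A3.ncard + D.ncard ≤ Y.ncard := by
  have s1 : f1 '' A1 ⊆ Y := by rintro _ ⟨a, ha, rfl⟩; exact h1 a ha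
  have s2 : f2 '' A2 ⊆ Y := by rintro _ ⟨a, ha, rfl⟩; exact h2 a ha
  have s3 : f3 '' A3 ⊆ Y := by rintro _ ⟨a, ha, rfl⟩; exact h3 a ha
  rw [← Set.ncard_image_of_injective A1 i1, ← Set.ncard_image_of_injective A2 i2,
    ← Set.ncard_image_of_injective A3 i3]
  have f1f := hY.subset s1
  have f2f := hY.subset s2
  have f3f := hY.subset s3
  have f4f := hY.subset h4
  rw [← Set.ncard_union_eq ?_ f1f f2f, ← Set.ncard_union_eq ?_ (f1f.union f2f) f3f,
    ← Set.ncard_union_eq ?_ ((f1f.union f2f).union f3f) f4f]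
  · exact Set.ncard_le_ncard (Set.union_subset (Set.union_subset (Set.union_subset s1 s2) s3) h4) hY
  · rw [Set.disjoint_left]
    rintro _ ((⟨a, ha, rfl⟩ | ⟨a, ha, rfl⟩) | ⟨a, ha, rfl⟩)
    · exact e1 a ha
    · exact e2 a ha
    · exact e3 a ha
  · rw [Set.disjoint_left]
    rintro _ (⟨a, ha, rfl⟩ | ⟨a, ha, rfl⟩) ⟨b, hb, h⟩
    · exact d13 a b h.symm
    · exact d23 a b h.symm
  · rw [Set.disjoint_left]
    rintro _ ⟨a, ha, rfl⟩ ⟨b, hb, h⟩
    exact d12 a b h.symm

theorem X_rec (p : List ℕ) (s : ℕ) :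
    (if 1 ≤ s then (X (p ++ [1]) (s - 1)).ncard else 0) +
      (if 2 ≤ s then (X (p ++ [2]) (s - 2)).ncard else 0) +
      (if 3 ≤ s then (X (p ++ [3]) (s - 3)).ncard else 0) +
      ({u : List ℕ | u = [] ∧ IsT (p ++ [3]) ∧ s = 3}).ncard ≤ (X p s).ncard := by
  have e : ∀ k, (if k ≤ s then (X (p ++ [k]) (s - k)).ncard else 0)
      = ({u | k ≤ s ∧ u ∈ X (p ++ [k]) (s - k)}).ncard := by
    intro k
    split_ifs with h
    · simp [h]
    · simp [h]
  rw [e, e, e]
  refine ncard_four (f1 := List.cons 1) (f2 := List.cons 2) (f3 := List.cons 3)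
    List.cons_injective List.cons_injective List.cons_injective (fun a b => by simp)
    (fun a b => by simp) (fun a b => by simp) (X_finite p s) ?_ ?_ ?_ ?_ ?_ ?_ ?_
  · rintro u ⟨h, h1, h2⟩
    exact ⟨by simpa using h1, by rw [List.sum_cons]; omega⟩
  · rintro u ⟨h, h1, h2⟩
    exact ⟨by simpa using h1, by rw [List.sum_cons]; omega⟩
  · rintro u ⟨h, h1, h2⟩
    exact ⟨by simpa using h1, by rw [List.sum_cons]; omega⟩
  · rintro u ⟨rfl, h1, h2⟩
    exact ⟨by simpa using h1, by simp [h2]⟩
  · rintro u _ ⟨h, _⟩; exact List.cons_ne_nil _ _ h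
  · rintro u _ ⟨h, _⟩; exact List.cons_ne_nil _ _ h
  · rintro u _ ⟨h, _⟩; exact List.cons_ne_nil _ _ h

theorem tword_rec3 (g : ℕ) :
    (tword (g + 1)).ncard + (tword g).ncard + (X [] (g + 2)).ncard ≤ (tword (g + 2)).ncard := by
  have inj : ∀ a : ℕ, Function.Injective fun u : List ℕ => u ++ [a] := fun a u v h =>
    List.append_cancel_right h
  have dis : ∀ a b : ℕ, a ≠ b → ∀ u v : List ℕ, u ++ [a] ≠ v ++ [b] := by
    intro a b hab u v h
    have := (List.append_inj' h rfl).2
    simp at this
    exact hab this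
  have := ncard_four (f1 := fun u : List ℕ => u ++ [1]) (f2 := fun u : List ℕ => u ++ [2])
    (f3 := fun u : List ℕ => u ++ [3]) (inj 1) (inj 2) (inj 3) (dis 1 2 (by norm_num))
    (dis 1 3 (by norm_num)) (dis 2 3 (by norm_num)) (A1 := tword (g + 1)) (A2 := tword g)
    (A3 := X [] (g + 2)) (D := ∅) (tword_finite (g + 2)) ?_ ?_ ?_ (Set.empty_subset _)
    (fun _ _ => Set.notMem_empty _) (fun _ _ => Set.notMem_empty _) (fun _ _ => Set.notMem_empty _)
  · simpa using this
  · rintro u ⟨h1, h2⟩
    exact ⟨isT_append h1 (by norm_num) (Or.inl (by norm_num)), by simp [h2]⟩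
  · rintro u ⟨h1, h2⟩
    exact ⟨isT_append h1 (by norm_num) (Or.inl (by norm_num)), by simp [h2]⟩
  · rintro u ⟨h1, h2⟩
    exact ⟨by simpa using h1, by simp [h2]⟩

theorem tword_rec (g : ℕ) :
    (tword (g + 1)).ncard + (tword g).ncard ≤ (tword (g + 2)).ncard :=
  (Nat.le_add_right _ _).trans (tword_rec3 g)

/-! ### masks -/

/-- `m` is the mask of the positions of the letter `1` in `p`, `r` the reversed mask -/
def Mask (p : List ℕ) (m r w : ℕ) : Prop :=
  w = 2 ^ p.length ∧ m < w ∧ (∀ i, m.testBit i = true ↔ i < p.length ∧ p.getD i 0 = 1) ∧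
    ∀ i, r.testBit i = true ↔ i < p.length ∧ p.getD (p.length - 1 - i) 0 = 1

theorem mask_nil : Mask [] 0 0 1 := by
  refine ⟨rfl, by norm_num, fun i => by simp, fun i => by simp⟩

theorem mask_one {p : List ℕ} {m r w : ℕ} (h : Mask p m r w) :
    Mask (p ++ [1]) (Nat.add m w) (Nat.succ (Nat.mul 2 r)) (Nat.mul 2 w) := by
  obtain ⟨h1, h2, h3, h4⟩ := h
  have e1 : Nat.add m w = 2 ^ p.length + m := by rw [Nat.add_eq, h1, add_comm]
  have e2 : Nat.succ (Nat.mul 2 r) = 2 * r + 1 := rfl
  have e3 : Nat.mul 2 w = 2 * w := rfl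
  have hl : (p ++ [1]).length = p.length + 1 := by simp
  rw [e1, e2, e3]
  refine ⟨by rw [hl, h1, pow_succ]; ring, by rw [h1] at h2 ⊢; omega, fun i => ?_, fun i => ?_⟩
  · rw [hl]
    rcases lt_trichotomy i p.length with hi | hi | hi
    · rw [Nat.testBit_two_pow_add_gt hi, h3, getD_append_left' p 1 i hi]
      constructor
      · rintro ⟨_, h⟩; exact ⟨by omega, h⟩
      · rintro ⟨_, h⟩; exact ⟨hi, h⟩
    · subst hi
      rw [Nat.testBit_two_pow_add_eq, Nat.testBit_lt_two_pow (by rw [← h1]; exact h2),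
        getD_append_last]
      simp
    · rw [Nat.testBit_lt_two_pow]
      · simp; omega
      · calc 2 ^ p.length + m < 2 ^ p.length + 2 ^ p.length := by rw [← h1]; omega
          _ = 2 ^ (p.length + 1) := by ring
          _ ≤ 2 ^ i := Nat.pow_le_pow_right (by norm_num) hi
  · rw [hl]
    cases i with
    | zero =>
      rw [show p.length + 1 - 1 - 0 = p.length by omega, getD_append_last]
      simp
    | succ i =>
      rw [Nat.testBit_succ, show (2 * r + 1) / 2 = r by omega, h4]
      constructor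
      · rintro ⟨h5, h6⟩
        refine ⟨by omega, ?_⟩
        rw [getD_append_left' p 1 _ (by omega),
          show p.length + 1 - 1 - (i + 1) = p.length - 1 - i by omega]
        exact h6
      · rintro ⟨h5, h6⟩
        refine ⟨by omega, ?_⟩
        rw [getD_append_left' p 1 _ (by omega),
          show p.length + 1 - 1 - (i + 1) = p.length - 1 - i by omega] at h6
        exact h6

theorem mask_other {p : List ℕ} {m r w a : ℕ} (h : Mask p m r w) (ha : a ≠ 1) :
    Mask (p ++ [a]) m (Nat.mul 2 r) (Nat.mul 2 w) := by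
  obtain ⟨h1, h2, h3, h4⟩ := h
  have e2 : Nat.mul 2 r = 2 * r := rfl
  have e3 : Nat.mul 2 w = 2 * w := rfl
  have hl : (p ++ [a]).length = p.length + 1 := by simp
  rw [e2, e3]
  refine ⟨by rw [hl, h1, pow_succ]; ring, by omega, fun i => ?_, fun i => ?_⟩
  · rw [hl, h3]
    rcases lt_trichotomy i p.length with hi | hi | hi
    · rw [getD_append_left' p a i hi]
      constructor
      · rintro ⟨_, h⟩; exact ⟨by omega, h⟩
      · rintro ⟨_, h⟩; exact ⟨hi, h⟩
    · subst hi
      rw [getD_append_last]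
      simp [ha]
    · constructor
      · rintro ⟨h, _⟩; omega
      · rintro ⟨h, _⟩; omega
  · rw [hl]
    cases i with
    | zero =>
      rw [show p.length + 1 - 1 - 0 = p.length by omega, getD_append_last]
      simp [ha]
    | succ i =>
      rw [Nat.testBit_succ, show (2 * r) / 2 = r by omega, h4]
      constructor
      · rintro ⟨h5, h6⟩
        refine ⟨by omega, ?_⟩
        rw [getD_append_left' p a _ (by omega),
          show p.length + 1 - 1 - (i + 1) = p.length - 1 - i by omega]
        exact h6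
      · rintro ⟨h5, h6⟩
        refine ⟨by omega, ?_⟩
        rw [getD_append_left' p a _ (by omega),
          show p.length + 1 - 1 - (i + 1) = p.length - 1 - i by omega] at h6
        exact h6

theorem mask_allowed {p : List ℕ} {m r w : ℕ} (h : Mask p m r w) (hp : IsT p)
    (h0 : Nat.beq (Nat.land m r) 0 = true) : Allowed p := by
  obtain ⟨_, _, h3, h4⟩ := h
  intro i j hij
  have b1 := getD_bd hp.let13 (show i < p.length by omega)
  have b2 := getD_bd hp.let13 (show j < p.length by omega)
  by_contra hc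
  have e1 : p.getD i 0 = 1 := by omega
  have e2 : p.getD j 0 = 1 := by omega
  have t1 : m.testBit i = true := (h3 i).mpr ⟨by omega, e1⟩
  have t2 : r.testBit i = true := (h4 i).mpr ⟨by omega, by
    rw [show p.length - 1 - i = j by omega]; exact e2⟩
  have h5 : m &&& r = 0 := Nat.eq_of_beq_eq_true h0
  have h6 : (m &&& r).testBit i = true := by rw [Nat.testBit_and, t1, t2]; rfl
  rw [h5] at h6
  simp at h6

/-! ### the generating polynomial -/

/-- polynomial version of `hh` -/
noncomputable def HP : ℕ → ℕ → ℕ → ℕ → Polynomial ℕ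
  | 0, _, _, _ => 0
  | 1, _, _, _ => 0
  | 2, _, _, _ => 0
  | k + 3, m, r, w =>
    if Nat.beq (Nat.land m r) 0 = true then
      Polynomial.X * (HP (k + 2) (Nat.add m w) (Nat.succ (Nat.mul 2 r)) (Nat.mul 2 w) +
        Polynomial.X * (HP (k + 1) m (Nat.mul 2 r) (Nat.mul 2 w) +
          Polynomial.X * (HP (k + 1) m (Nat.mul 2 r) (Nat.mul 2 w) + 1)))
    else
      Polynomial.X * (HP (k + 2) (Nat.add m w) (Nat.succ (Nat.mul 2 r)) (Nat.mul 2 w) +
        Polynomial.X * HP (k + 1) m (Nat.mul 2 r) (Nat.mul 2 w))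

theorem frc_eq' {β : Type} (x : ℕ) (k : ℕ → β) : frc x k = k x := by
  simp [frc]

theorem eval_HP (b : ℕ) : ∀ k m r w, (HP k m r w).eval b = hh b k m r w
  | 0, _, _, _ => by simp [HP, hh]
  | 1, _, _, _ => by simp [HP, hh]
  | 2, _, _, _ => by simp [HP, hh]
  | k + 3, m, r, w => by
    unfold HP hh
    simp only [frc_eq']
    have h1 := eval_HP b (k + 2) (Nat.add m w) (Nat.succ (Nat.mul 2 r)) (Nat.mul 2 w)
    have h2 := eval_HP b (k + 1) m (Nat.mul 2 r) (Nat.mul 2 w)
    split_ifs with h
    · rw [h, cond_true]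
      simp only [Polynomial.eval_mul, Polynomial.eval_add, Polynomial.eval_X, Polynomial.eval_one,
        h1, h2]
      rfl
    · rw [Bool.not_eq_true] at h
      rw [h, cond_false]
      simp only [Polynomial.eval_mul, Polynomial.eval_add, Polynomial.eval_X, h1, h2]
      rfl

/-- the coefficients are lower bounds for the numbers of words -/
theorem coeff_HP : ∀ (k m r w : ℕ) (p : List ℕ), IsT p → Mask p m r w → ∀ s,
    (HP k m r w).coeff s ≤ (X p s).ncard
  | 0, _, _, _, _, _, _, s => by simp [HP]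
  | 1, _, _, _, _, _, _, s => by simp [HP]
  | 2, _, _, _, _, _, _, s => by simp [HP]
  | k + 3, m, r, w, p, hp, hm, s => by
    have i1 := fun s => coeff_HP (k + 2) _ _ _ (p ++ [1])
      (isT_append hp (by norm_num) (Or.inl (by norm_num))) (mask_one hm) s
    have i2 := fun s => coeff_HP (k + 1) _ _ _ (p ++ [2])
      (isT_append hp (by norm_num) (Or.inl (by norm_num))) (mask_other hm (by norm_num)) s
    have hrec := X_rec p s
    unfold HP
    generalize HP (k + 2) (Nat.add m w) (Nat.succ (Nat.mul 2 r)) (Nat.mul 2 w) = y at *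
    split_ifs with h
    · have ha := mask_allowed hm hp h
      have i3 := fun s => coeff_HP (k + 1) _ _ _ (p ++ [3])
        (isT_append hp (by norm_num) (Or.inr ha)) (mask_other hm (by norm_num)) s
      generalize HP (k + 1) m (Nat.mul 2 r) (Nat.mul 2 w) = z at *
      refine le_trans ?_ hrec
      rcases s with _ | _ | _ | s
      · simp
      · simp only [Polynomial.coeff_X_mul, zero_add, Polynomial.coeff_add, Polynomial.mul_coeff_zero,
          Polynomial.coeff_X_zero, zero_mul, add_zero]
        have := i1 0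
        simp only [le_refl, if_true, Nat.sub_self]
        omega
      · simp only [Polynomial.coeff_X_mul, zero_add, Polynomial.coeff_add, Polynomial.mul_coeff_zero,
          Polynomial.coeff_X_zero, zero_mul, add_zero]
        have h1 := i1 1
        have h2 := i2 0
        rw [if_pos (by norm_num), if_pos (by norm_num)]
        norm_num
        omega
      · simp only [Polynomial.coeff_X_mul, Polynomial.coeff_add]
        have h1 := i1 (s + 2)
        have h2 := i2 (s + 1)
        have h3 := i3 s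
        rw [if_pos (by omega), if_pos (by omega), if_pos (by omega)]
        have h4 : (1 : Polynomial ℕ).coeff s
            ≤ ({u : List ℕ | u = [] ∧ IsT (p ++ [3]) ∧ s + 1 + 1 + 1 = 3}).ncard := by
          rw [Polynomial.coeff_one]
          split_ifs with hs
          · subst hs
            have : {u : List ℕ | u = [] ∧ IsT (p ++ [3]) ∧ 0 + 1 + 1 + 1 = 3} = {[]} := by
              ext u
              simp only [Set.mem_ofPred_eq, Set.mem_singleton_iff]
              exact ⟨fun h => h.1, fun h => ⟨h, isT_append hp (by norm_num) (Or.inr ha), trivial⟩⟩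
            rw [this, Set.ncard_singleton]
          · exact Nat.zero_le _
        rw [show s + 1 + 1 + 1 - 1 = s + 2 by omega, show s + 1 + 1 + 1 - 2 = s + 1 by omega,
          show s + 1 + 1 + 1 - 3 = s by omega]
        omega
    · generalize HP (k + 1) m (Nat.mul 2 r) (Nat.mul 2 w) = z at *
      refine le_trans ?_ hrec
      rcases s with _ | _ | s
      · simp
      · simp only [Polynomial.coeff_X_mul, zero_add, Polynomial.coeff_add, Polynomial.mul_coeff_zero,
          Polynomial.coeff_X_zero, zero_mul, add_zero]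
        have := i1 0
        simp only [le_refl, if_true, Nat.sub_self]
        omega
      · simp only [Polynomial.coeff_X_mul, Polynomial.coeff_add]
        have h1 := i1 (s + 1)
        have h2 := i2 s
        rw [if_pos (by omega), if_pos (by omega)]
        rw [show s + 1 + 1 - 1 = s + 1 by omega, show s + 1 + 1 - 2 = s by omega]
        omega

/-! ### digits -/

/-- the number with digits `c i, c (i+1), …, c (i+n-1)` in base `2^32` -/
def V (c : ℕ → ℕ) (n i : ℕ) : ℕ := ∑ j ∈ range n, c (i + j) * (2 ^ 32) ^ j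

theorem V_succ (c : ℕ → ℕ) (n i : ℕ) : V c (n + 1) i = c i + 2 ^ 32 * V c n (i + 1) := by
  unfold V
  rw [Finset.sum_range_succ', Finset.mul_sum, add_comm]
  simp only [add_zero, pow_zero, mul_one]
  congr 1
  refine Finset.sum_congr rfl fun j _ => ?_
  rw [show i + 1 + j = i + (j + 1) by ring, pow_succ]; ring

theorem chkD_spec (c : ℕ → ℕ) (hc : ∀ j, c j < 2 ^ 32) : ∀ (ts : List ℕ) (n i : ℕ),
    ts.length ≤ n → chkD ts (V c n i) = true → ∀ j < ts.length, ts.getD j 0 ≤ c (i + j)
  | [], _, _, _, _, j, hj => absurd hj (Nat.not_lt_zero j)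
  | t :: ts, 0, _, hn, _, _, _ => by simp at hn
  | t :: ts, n + 1, i, hn, h, j, hj => by
    unfold chkD at h
    simp only [frc_eq', Bool.and_eq_true] at h
    have e1 : Nat.land (V c (n + 1) i) (Nat.sub (Nat.pow 2 32) 1) = c i := by
      rw [show Nat.land (V c (n + 1) i) (Nat.sub (Nat.pow 2 32) 1) = V c (n + 1) i % 2 ^ 32 from
        Nat.and_two_pow_sub_one_eq_mod _ _, V_succ, Nat.add_mul_mod_self_left,
        Nat.mod_eq_of_lt (hc i)]
    have e2 : Nat.shiftRight (V c (n + 1) i) 32 = V c n (i + 1) := by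
      rw [show Nat.shiftRight (V c (n + 1) i) 32 = V c (n + 1) i / 2 ^ 32 from
        Nat.shiftRight_eq_div_pow _ _, V_succ, Nat.add_mul_div_left _ _ (by positivity),
        Nat.div_eq_of_lt (hc i), zero_add]
    rw [e1, e2] at h
    cases j with
    | zero => simpa using Nat.le_of_ble_eq_true h.1
    | succ j =>
      have := chkD_spec c hc ts n (i + 1) (by simpa using hn) h.2 j (by simpa using hj)
      rw [show i + (j + 1) = i + 1 + j by ring]
      simpa using this

theorem cL_le (s : ℕ) (hs : s < 25) : cL.getD s 0 ≤ (X [] s).ncard := by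
  have hT : IsT [] := ⟨fun x hx => absurd hx List.not_mem_nil, fun i j h => by simp at h⟩
  refine le_trans ?_ (coeff_HP 24 0 0 1 [] hT mask_nil s)
  set p := HP 24 0 0 1 with hp
  have hc : ∀ j, p.coeff j < 2 ^ 32 := by
    intro j
    have h1 : p.eval 1 ≤ 200000 := by
      rw [hp, eval_HP]; exact Nat.le_of_ble_eq_true chkT1
    have h2 : p.coeff j ≤ p.eval 1 := by
      rw [Polynomial.eval_eq_sum_range]
      by_cases hj : j ∈ Finset.range (p.natDegree + 1)
      · have := Finset.single_le_sum (f := fun i => p.coeff i * 1 ^ i)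
          (fun i _ => Nat.zero_le _) hj
        simpa using this
      · rw [Polynomial.coeff_eq_zero_of_natDegree_lt (by
          rw [Finset.mem_range] at hj; omega)]
        exact Nat.zero_le _
    calc p.coeff j ≤ 200000 := h2.trans h1
      _ < 2 ^ 32 := by norm_num
  have hV : hh (2 ^ 32) 24 0 0 1 = V p.coeff (25 + (p.natDegree + 1)) 0 := by
    rw [← eval_HP, ← hp, Polynomial.eval_eq_sum_range' (n := 25 + (p.natDegree + 1)) (by omega)]
    unfold V
    simp only [zero_add]
  have h3 := chkT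
  rw [hV] at h3
  have := chkD_spec p.coeff hc cL _ 0 (by
    rw [show cL.length = 25 from rfl]; omega) h3 s hs
  rwa [zero_add] at this

/-! ### the lower bound -/

/-- Fibonacci-like sequence starting with `a, b` -/
def fibg : ℕ → ℕ → ℕ → ℕ
  | a, _, 0 => a
  | a, b, n + 1 => fibg b (a + b) n

theorem fibg_rec : ∀ (a b n : ℕ), fibg a b (n + 2) = fibg a b (n + 1) + fibg a b n
  | a, b, 0 => by simp [fibg, add_comm]
  | a, b, n + 1 => by
    rw [show n + 1 + 2 = n + 2 + 1 by ring, fibg, fibg_rec b (a + b) n]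
    rfl

/-- lower bound for the number of T-words: exact table up to 24, then Fibonacci -/
def tlo (g : ℕ) : ℕ := if g < 25 then tl25.getD g 0 else fibg 381253 619189 (g - 25)

theorem tlo_table (g : ℕ) (h : g < 25) : tlo g = tl25.getD g 0 := if_pos h

theorem tlo_rec (g : ℕ) (h : 23 ≤ g) : tlo (g + 2) = tlo (g + 1) + tlo g := by
  by_cases h1 : 25 ≤ g
  · obtain ⟨k, rfl⟩ := Nat.exists_eq_add_of_le h1
    unfold tlo
    rw [if_neg (by omega), if_neg (by omega), if_neg (by omega),
      show 25 + k + 2 - 25 = k + 2 by omega, show 25 + k + 1 - 25 = k + 1 by omega,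
      show 25 + k - 25 = k by omega, fibg_rec]
  · have : g = 23 ∨ g = 24 := by omega
    rcases this with rfl | rfl <;> rfl

theorem tab_rec : ∀ g < 23, tl25.getD (g + 2) 0 ≤ tl25.getD (g + 1) 0 + tl25.getD g 0 +
    cL.getD (g + 2) 0 := by decide

theorem tlo_le : ∀ g, tlo g ≤ (tword g).ncard
  | 0 => by
    have : tword 0 = {[]} := by
      ext w
      constructor
      · rintro ⟨h1, h2⟩
        rcases w with _ | ⟨a, w⟩
        · rfl
        · have := (h1.let13 a (by simp)).1
          rw [List.sum_cons] at h2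
          omega
      · rintro rfl
        exact ⟨⟨fun x hx => absurd hx List.not_mem_nil, fun i j h => by simp at h⟩, rfl⟩
    rw [this, Set.ncard_singleton]; exact le_of_eq rfl
  | 1 => by
    have : [1] ∈ tword 1 := by
      refine ⟨⟨fun x hx => ?_, fun i j h => ?_⟩, rfl⟩
      · rw [List.mem_singleton] at hx; subst hx; norm_num
      · simp at h
    have h2 : 0 < (tword 1).ncard := (Set.ncard_pos (tword_finite 1)).mpr ⟨_, this⟩
    exact h2
  | g + 2 => by
    have h1 := tlo_le (g + 1)
    have h2 := tlo_le g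
    by_cases hg : g < 23
    · have h3 := tab_rec g hg
      have h4 := cL_le (g + 2) (by omega)
      have h5 := tword_rec3 g
      rw [tlo_table _ (by omega)] at h1 h2 ⊢
      omega
    · rw [tlo_rec g (by omega)]
      have := tword_rec g
      omega

end Helper8.NS
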