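import Mathlib.Data.Nat.Notation

/-! Kernel-friendly evaluation of the bound polynomials for MP_56bc24_co at `x = 2^448`,
modulo `2^(448*641)` (helper8). -/

namespace Helper8.NS

/-- force the evaluation of `x` -/
def frc {β : Type} (x : ℕ) (k : ℕ → β) : β := cond (Nat.beq x x) (k x) (k 0)

/-- bits per digit -/
def mask : ℕ := Nat.sub (Nat.pow 2 (448 * 641)) 1

def red (a : ℕ) : ℕ := Nat.land a mask

def mul (a b : ℕ) : ℕ := Nat.land (Nat.mul a b) mask

/-- multiplication by `x ^ n` -/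
def shl (a n : ℕ) : ℕ := Nat.land (Nat.shiftLeft a (Nat.mul 448 n)) mask

/-- entrywise sum of two rows of the same length -/
def addr : List ℕ → List ℕ → List ℕ
  | [], _ => []
  | _ :: _, [] => []
  | a :: as, b :: bs => frc (Nat.add a b) fun c => c :: addr as bs

/-- suffix sums of a list of rows -/
def suf : List (List ℕ) → List (List ℕ)
  | [] => []
  | r :: rs =>
    match suf rs with
    | [] => [r]
    | s :: ss => addr r s :: s :: ss

/-- prefix sums -/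
def pre : ℕ → List ℕ → List ℕ
  | _, [] => []
  | acc, a :: as => frc (Nat.add acc a) fun b => b :: pre b as

/-- repeat the last entry -/
def shf : ℕ → List ℕ → List ℕ
  | b, [] => [b]
  | _, c :: l => c :: shf c l

def tl0 : List ℕ → List ℕ
  | [] => []
  | _ :: l => l

def hd0 : List ℕ → ℕ
  | [] => 0
  | a :: _ => a

def mulrow (s u : ℕ) : ℕ → List ℕ → List ℕ
  | _, [] => []
  | v, a :: as => frc (cond (Nat.ble s (Nat.add u v)) (shl a (Nat.add u v)) 0) fun b =>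
      b :: mulrow s u (Nat.succ v) as

def mulrows (s : ℕ) : ℕ → List ℕ → List (List ℕ) → List (List ℕ)
  | _, _, [] => []
  | u, p, r :: rs => mulrow s u 1 (shf 0 (tl0 (pre 0 p))) :: mulrows s (Nat.succ u) r rs

def hd : List (List ℕ) → List ℕ
  | [] => []
  | r :: _ => r

/-- list of column sums -/
def fam (s : ℕ) : ℕ → List (List ℕ) → List (List ℕ)
  | 0, _ => []
  | k + 1, M => hd (suf M) :: fam s k (mulrows s 1 (hd (suf M)) (suf M))

/-- sum of a list, starting from an accumulator -/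
def sm : ℕ → List ℕ → ℕ
  | acc, [] => acc
  | acc, a :: as => frc (Nat.add acc a) fun b => sm b as

/-- force the first `n` entries of a list -/
def fl {β : Type} : ℕ → List ℕ → β → β
  | 0, _, r => r
  | _ + 1, [], r => r
  | n + 1, a :: as, r => frc a fun _ => fl n as r

def addl : List ℕ → List ℕ → List ℕ
  | [], l => l
  | a :: as, [] => a :: as
  | a :: as, b :: bs => frc (Nat.add a b) fun c => c :: addl as bs

def interH (m : ℕ) : List ℕ → List ℕ
  | [] => []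
  | p :: ps => p :: frc (mul p m) fun h => h :: interH m ps

/-- the sequence `y (j+2) = A y j + z j`, `z (j+2) = P z j` -/
def gen (A P : ℕ) : ℕ → ℕ → ℕ → ℕ → ℕ → List ℕ
  | 0, _, _, _, _ => []
  | n + 1, y0, y1, z0, z1 =>
    cond (and (Nat.beq y0 0) (and (Nat.beq y1 0) (and (Nat.beq z0 0) (Nat.beq z1 0)))) []
      (frc (red (Nat.add (Nat.mul A y0) z0)) fun y2 =>
        frc (mul P z0) fun z2 => y0 :: gen A P n y1 y2 z1 z2)

def row (P H Pp Hp p h n : ℕ) : List ℕ :=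
  gen Pp P n h (red (Nat.add p (Nat.mul Hp h))) (mul p (Nat.add H Hp))
    (mul p (red (Nat.add P (Nat.mul Hp H))))

/-- rows of index `k ≥ 1`, lists start at index `k` -/
def rows : ℕ → ℕ → List ℕ → List ℕ → List ℕ → List ℕ → List ℕ → List ℕ
  | 0, _, _, _, _, _, acc => acc
  | f + 1, k, ps, hs, ts, us, acc =>
    (fun acc' => fl (Nat.div 640 k) acc' (rows f (Nat.succ k) (tl0 ps) (tl0 hs) (tl0 ts) (tl0 us) acc'))
      (addl acc (row (hd0 ps) (hd0 hs) (hd0 (tl0 ps)) (hd0 (tl0 hs)) (hd0 ts) (hd0 us)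
        (Nat.div 640 k)))

/-- `∑_a (LA a + lb a) * RA a` -/
def fin (ra ro lm : ℕ) : ℕ → List ℕ → List ℕ → ℕ → ℕ → ℕ → ℕ → ℕ
  | 0, _, _, _, _, _, acc => acc
  | n + 1, r, la, cv, p0, p1, acc =>
    frc (red (Nat.add acc (Nat.mul (Nat.add (mul ra cv) (hd0 la)) (hd0 r)))) fun acc' =>
      frc (red (Nat.add (Nat.mul ro cv) p0)) fun cv' =>
        frc (mul lm p0) fun p2 => fin ra ro lm n (tl0 r) (tl0 la) cv' p1 p2 acc'

/-- `∑_{i<n} pal i`, state `pal i, pal (i+1)` -/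
def spal (lm : ℕ) : ℕ → ℕ → ℕ → ℕ → ℕ
  | 0, _, _, acc => acc
  | n + 1, p0, p1, acc =>
    frc (Nat.add acc p0) fun a => frc (mul lm p0) fun p2 => spal lm n p1 p2 a

def spow (ro : ℕ) : ℕ → ℕ → ℕ → ℕ
  | 0, _, acc => acc
  | n + 1, p, acc => frc (Nat.add acc p) fun a => frc (mul ro p) fun p' => spow ro n p' a

/-- value of a polynomial at `x = 2^448` (Horner) -/
def pol : List ℕ → ℕ
  | [] => 0
  | a :: l => Nat.add a (Nat.shiftLeft (pol l) 448)

def sums : List (List ℕ) → List ℕ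
  | [] => []
  | r :: rs => frc (sm 0 r) fun s => s :: sums rs

def heads : List (List ℕ) → List ℕ
  | [] => []
  | r :: rs => hd0 r :: heads rs

def tails : List (List ℕ) → List ℕ
  | [] => []
  | r :: rs => frc (sm 0 (tl0 r)) fun s => s :: tails rs

/-- initial vector: entries `x^(u+v)` for `u+v ≥ s` and `t u` -/
def irow (s : ℕ) (t : Bool) (u : ℕ) : ℕ → ℕ → List ℕ
  | 0, _ => []
  | n + 1, v => cond (and t (Nat.ble s (Nat.add u v))) (shl 1 (Nat.add u v)) 0 ::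
      irow s t u n (Nat.succ v)

def irows (s : ℕ) (t : ℕ → Bool) (m : ℕ) : ℕ → ℕ → List (List ℕ)
  | 0, _ => []
  | n + 1, u => irow s (t u) u m 1 :: irows s t m n (Nat.succ u)

/-- the right factors for maximum `q`; `s = q - 1`, `n = 640 / s` -/
def RAl (s n mid : ℕ) : List ℕ :=
  (fun ps => (fun hs => rows 640 1 ps (tl0 hs) ps (tl0 hs)
      (row 1 1 (hd0 ps) (hd0 (tl0 hs)) 1 1 641)) (interH mid (1 :: ps)))
    (sums (fam s n (irows s (fun _ => true) s s 1)))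

def LAl (q n mid : ℕ) : List ℕ :=
  (fun ms ns => rows 640 1 (tails ms) (tl0 (interH mid (1 :: sums ms))) (heads ms)
      (tl0 (interH mid (0 :: sums ns))) [])
    (fam q n (irows q (fun u => Nat.ble 2 u) q q 1))
    (fam q n (irows q (fun u => Nat.beq 1 u) q q 1))

/-- `∑_{a ≤ 641} (LA a + lb a) * RA a` -/
def tot (s q n m midR midL ra ro lm lmid : ℕ) : ℕ :=
  fin ra ro lm 641 (RAl s n midR) (LAl q m midL) 0 1 lmid 0

def bsh (lm lmid ro rmid : ℕ) : ℕ :=
  mul (mul (red (spal lm 641 1 lmid 0)) (red (spow ro 641 1 0))) (Nat.succ rmid)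

def ee4 : ℕ :=
  shl (Nat.add (tot 3 4 213 160 (pol [0,0,1,1]) (pol [0,0,1,1,1]) (pol [0,0,0,1,1])
    (pol [0,0,0,1,2,2,1]) (pol [0,0,0,0,1,2,3,2,1]) (pol [0,0,1,1,1]))
    (bsh (pol [0,0,0,0,1,2,3,2,1]) (pol [0,0,1,1,1]) (pol [0,0,0,1,2,2,1]) (pol [0,0,1,1]))) 4

def ee5 : ℕ :=
  shl (Nat.add (tot 4 5 160 128 (pol [0,0,1,1,1]) (pol [0,0,0,1,1,1]) (pol [0,0,0,0,1,1])
    (pol [0,0,0,0,2,3,3,2,1]) (pol [0,0,0,0,0,2,3,4,3,2,1]) (pol [0,0,0,1,1,1]))
    (bsh (pol [0,0,0,0,0,2,3,4,3,2,1]) (pol [0,0,0,1,1,1]) (pol [0,0,0,0,2,3,3,2,1])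
      (pol [0,0,1,1,1]))) 5

/-- `∑_{j<n} P^j`, stops at `P^j = 0` -/
def geo (P : ℕ) : ℕ → ℕ → ℕ → ℕ
  | 0, _, acc => acc
  | n + 1, c, acc =>
    cond (Nat.beq c 0) acc (frc (Nat.add acc c) fun a => frc (mul P c) fun c' => geo P n c' a)

def aa (P m : ℕ) : ℕ := mul (red (geo P 641 1 0)) (Nat.succ m)

/-- state: `pp q`, `∑_{t=q}^{2q} x^t`, `mid q`, `AA (q-1)` -/
def e6l : ℕ → ℕ → Bool → ℕ → ℕ → ℕ → ℕ → ℕ → ℕ
  | 0, _, _, _, _, _, _, acc => acc
  | n + 1, q, ev, P, T, m, prev, acc =>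
    frc (aa P m) fun A =>
      frc (Nat.add acc (shl (mul A prev) q)) fun acc' =>
        frc (Nat.add (shl T 1) (shl 1 (Nat.add (Nat.mul 2 q) 2))) fun T' =>
          frc (Nat.add (shl P 1) T') fun P' =>
            frc (cond ev (shl m 1) (Nat.add m (shl 1 (Nat.succ q)))) fun m' =>
              e6l n (Nat.succ q) (not ev) P' T' m' A acc'

def ee6 : ℕ := red (e6l 635 6 true (pol [0,0,0,0,0,0,5,6,5,4,3,2,1])
  (pol [0,0,0,0,0,0,1,1,1,1,1,1,1]) (pol [0,0,0,1,1,1,1])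
  (aa (pol [0,0,0,0,0,4,5,4,3,2,1]) (pol [0,0,0,1,1,1])) 0)

/-- check `100 * digit ≤ m * t` for the digits of `v` along the Fibonacci recursion -/
def chkF (m : ℕ) : ℕ → ℕ → ℕ → ℕ → Bool
  | 0, _, _, _ => true
  | n + 1, v, a, b =>
    frc (Nat.land v (Nat.sub (Nat.pow 2 448) 1)) fun d =>
      frc (Nat.shiftRight v 448) fun v' =>
        frc (Nat.add a b) fun c =>
          and (Nat.ble (Nat.mul 100 d) (Nat.mul m a)) (chkF m n v' b c)

/-- the same with an explicit list of values first -/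
def chkL (m : ℕ) : List ℕ → ℕ → ℕ → ℕ → ℕ → Bool
  | [], n, v, a, b => chkF m n v a b
  | t :: ts, n, v, a, b =>
    frc (Nat.land v (Nat.sub (Nat.pow 2 448) 1)) fun d =>
      frc (Nat.shiftRight v 448) fun v' =>
        and (Nat.ble (Nat.mul 100 d) (Nat.mul m t)) (chkL m ts n v' a b)

def tl25 : List ℕ := [1,1,2,4,6,11,20,33,57,99,168,287,487,824,1395,2351,3954,6636,11116,18593,
  31042,51780,86223,143317,237936]

end Helper8.NS
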