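import Pool.Agent.Helper23.NS.Natl
import Pool.Agent.Helper8.NS.Alg

/-! Correctness of the kernel evaluation, part 1: basic operations, vector recursion. -/

namespace Helper8.NS
open Finset Helper23.NS

theorem frc_eq {β : Type} (x : ℕ) (k : ℕ → β) : frc x k = k x := by
  simp [frc]

theorem land_lem (a e : ℕ) : Nat.land a (Nat.sub (Nat.pow 2 e) 1) = a % 2 ^ e :=
  Nat.and_two_pow_sub_one_eq_mod a e

theorem red_eq (a : ℕ) : red a = a % 2 ^ (448 * 641) := by
  unfold red mask
  exact land_lem a (448 * 641)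

theorem shiftLeft_lem' (a e : ℕ) : Nat.shiftLeft a e = a * 2 ^ e := Nat.shiftLeft_eq a e

theorem shiftLeft_lem (a e n : ℕ) : Nat.shiftLeft a (Nat.mul e n) = a * (2 ^ e) ^ n := by
  rw [← pow_mul]; exact Nat.shiftLeft_eq a _

section
variable {K : Type*} [CommRing K]

/-- the base point -/
def BX (K : Type*) [CommRing K] : K := 2 ^ 448

variable (hx : (BX K) ^ 641 = 0)
include hx

theorem c_red (a : ℕ) : ((red a : ℕ) : K) = a := by
  have h2 : ((2 ^ (448 * 641) : ℕ) : K) = 0 := by
    rw [pow_mul]; push_cast; exact hx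
  have h3 : (a : K) = ((2 ^ (448 * 641) * (a / 2 ^ (448 * 641)) + a % 2 ^ (448 * 641) : ℕ) : K) := by
    rw [Nat.div_add_mod]
  rw [red_eq, h3, Nat.cast_add, Nat.cast_mul, h2, zero_mul, zero_add]

theorem c_mul (a b : ℕ) : ((mul a b : ℕ) : K) = a * b := by
  have := c_red hx (Nat.mul a b)
  rw [show mul a b = red (Nat.mul a b) from rfl, this]
  exact Nat.cast_mul a b

theorem c_shl (a n : ℕ) : ((shl a n : ℕ) : K) = a * (BX K) ^ n := by
  have := c_red hx (Nat.shiftLeft a (Nat.mul 448 n))
  rw [show shl a n = red (Nat.shiftLeft a (Nat.mul 448 n)) from rfl, this]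
  rw [shiftLeft_lem, BX, Nat.cast_mul, Nat.cast_pow, Nat.cast_pow, Nat.cast_ofNat]

end

theorem ble_dec (a b : ℕ) : Nat.ble a b = decide (a ≤ b) := by
  by_cases h : a ≤ b
  · rw [Nat.ble_eq_true_of_le h]; simp [h]
  · have : Nat.ble a b = false := by
      rw [← Bool.not_eq_true]; intro h'; exact h (Nat.le_of_ble_eq_true h')
    rw [this]; simp [h]

section
variable {K : Type*} [CommRing K]
variable (hx : (BX K) ^ 641 = 0)

/-- the list of rows `M` represents the matrix `V` -/
def Rep (m : ℕ) (M : List (List ℕ)) (V : ℕ → ℕ → K) : Prop :=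
  ∃ a : ℕ → ℕ → ℕ, M = (List.range m).map (fun u => (List.range m).map (fun v => a u v)) ∧
    ∀ u < m, ∀ v < m, ((a u v : ℕ) : K) = V (u + 1) (v + 1)

theorem pv_zero_left (x : K) (mx s : ℕ) (T : ℕ → Bool) (k v : ℕ) : pv x mx s T k 0 v = 0 := by
  cases k <;> simp [pv, okn]
theorem pv_zero_right (x : K) (mx s : ℕ) (T : ℕ → Bool) (k u : ℕ) : pv x mx s T k u 0 = 0 := by
  cases k <;> simp [pv, okn]

set_option linter.unusedSimpArgs false

/-- what is needed about a row of column sums -/
def ColOK (m : ℕ) (T : ℕ → Bool) (k : ℕ) (K : Type*) [CommRing K] (l : List ℕ) : Prop :=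
  ((sm 0 l : ℕ) : K) = PP (BX K) m m T tt 0 (k + 1) ∧
  ((hd0 l : ℕ) : K) = PP (BX K) m m T eq1 0 (k + 1) ∧
  ((sm 0 (tl0 l) : ℕ) : K) = PP (BX K) m m T ge2 0 (k + 1)

theorem col3 (T : ℕ → Bool) (k : ℕ) (M : List (List ℕ)) (h : Rep 3 M (pv (BX K) 3 3 T k)) :
    ColOK 3 T k K (hd (suf M)) := by
  obtain ⟨a, rfl, ha⟩ := h
  refine ⟨?_, ?_, ?_⟩ <;> simp only [List.range_succ, List.range_zero, List.nil_append, List.map_cons, List.map_nil,
      List.cons_append, List.nil_append, suf, addr, frc_eq, hd, mulrows, mulrow, pre, shf, tl0,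
      List.getD_cons_zero, List.getD_cons_succ, irows, irow, hd0, sm] <;>
    simp [PP, tt, eq1, ge2, Finset.sum_range_succ, pv_zero_left, pv_zero_right, ha] <;> ring

theorem col4 (T : ℕ → Bool) (k : ℕ) (M : List (List ℕ)) (h : Rep 4 M (pv (BX K) 4 4 T k)) :
    ColOK 4 T k K (hd (suf M)) := by
  obtain ⟨a, rfl, ha⟩ := h
  refine ⟨?_, ?_, ?_⟩ <;> simp only [List.range_succ, List.range_zero, List.nil_append, List.map_cons, List.map_nil,
      List.cons_append, List.nil_append, suf, addr, frc_eq, hd, mulrows, mulrow, pre, shf, tl0,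
      List.getD_cons_zero, List.getD_cons_succ, irows, irow, hd0, sm] <;>
    simp [PP, tt, eq1, ge2, Finset.sum_range_succ, pv_zero_left, pv_zero_right, ha] <;> ring

theorem col5 (T : ℕ → Bool) (k : ℕ) (M : List (List ℕ)) (h : Rep 5 M (pv (BX K) 5 5 T k)) :
    ColOK 5 T k K (hd (suf M)) := by
  obtain ⟨a, rfl, ha⟩ := h
  refine ⟨?_, ?_, ?_⟩ <;> simp only [List.range_succ, List.range_zero, List.nil_append, List.map_cons, List.map_nil,
      List.cons_append, List.nil_append, suf, addr, frc_eq, hd, mulrows, mulrow, pre, shf, tl0,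
      List.getD_cons_zero, List.getD_cons_succ, irows, irow, hd0, sm] <;>
    simp [PP, tt, eq1, ge2, Finset.sum_range_succ, pv_zero_left, pv_zero_right, ha] <;> ring

include hx

theorem init3 (t T : ℕ → Bool) (h : ∀ u, t u = T u) :
    Rep 3 (irows 3 t 3 3 1) (pv (BX K) 3 3 T 0) := by
  refine ⟨fun u v => ((irows 3 t 3 3 1).getD u []).getD v 0, ?_, ?_⟩
  · simp only [List.range_succ, List.range_zero, List.nil_append, List.map_cons, List.map_nil,
      List.cons_append, List.nil_append, suf, addr, frc_eq, hd, mulrows, mulrow, pre, shf, tl0,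
      List.getD_cons_zero, List.getD_cons_succ, irows, irow, hd0, sm]
  · intro u hu v hv
    simp only [List.range_succ, List.range_zero, List.nil_append, List.map_cons, List.map_nil,
      List.cons_append, List.nil_append, suf, addr, frc_eq, hd, mulrows, mulrow, pre, shf, tl0,
      List.getD_cons_zero, List.getD_cons_succ, irows, irow, hd0, sm]
    rcases hT : T (u + 1) with _ | _ <;> interval_cases u <;> interval_cases v <;>
    simp [pv, okn, h, ble_dec, hT, c_shl hx]

theorem init4 (t T : ℕ → Bool) (h : ∀ u, t u = T u) :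
    Rep 4 (irows 4 t 4 4 1) (pv (BX K) 4 4 T 0) := by
  refine ⟨fun u v => ((irows 4 t 4 4 1).getD u []).getD v 0, ?_, ?_⟩
  · simp only [List.range_succ, List.range_zero, List.nil_append, List.map_cons, List.map_nil,
      List.cons_append, List.nil_append, suf, addr, frc_eq, hd, mulrows, mulrow, pre, shf, tl0,
      List.getD_cons_zero, List.getD_cons_succ, irows, irow, hd0, sm]
  · intro u hu v hv
    simp only [List.range_succ, List.range_zero, List.nil_append, List.map_cons, List.map_nil,
      List.cons_append, List.nil_append, suf, addr, frc_eq, hd, mulrows, mulrow, pre, shf, tl0,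
      List.getD_cons_zero, List.getD_cons_succ, irows, irow, hd0, sm]
    rcases hT : T (u + 1) with _ | _ <;> interval_cases u <;> interval_cases v <;>
    simp [pv, okn, h, ble_dec, hT, c_shl hx]

theorem init5 (t T : ℕ → Bool) (h : ∀ u, t u = T u) :
    Rep 5 (irows 5 t 5 5 1) (pv (BX K) 5 5 T 0) := by
  refine ⟨fun u v => ((irows 5 t 5 5 1).getD u []).getD v 0, ?_, ?_⟩
  · simp only [List.range_succ, List.range_zero, List.nil_append, List.map_cons, List.map_nil,
      List.cons_append, List.nil_append, suf, addr, frc_eq, hd, mulrows, mulrow, pre, shf, tl0,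
      List.getD_cons_zero, List.getD_cons_succ, irows, irow, hd0, sm]
  · intro u hu v hv
    simp only [List.range_succ, List.range_zero, List.nil_append, List.map_cons, List.map_nil,
      List.cons_append, List.nil_append, suf, addr, frc_eq, hd, mulrows, mulrow, pre, shf, tl0,
      List.getD_cons_zero, List.getD_cons_succ, irows, irow, hd0, sm]
    rcases hT : T (u + 1) with _ | _ <;> interval_cases u <;> interval_cases v <;>
    simp [pv, okn, h, ble_dec, hT, c_shl hx]

theorem step3 (T : ℕ → Bool) (k : ℕ) (M : List (List ℕ)) (h : Rep 3 M (pv (BX K) 3 3 T k)) :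
    Rep 3 (mulrows 3 1 (hd (suf M)) (suf M)) (pv (BX K) 3 3 T (k + 1)) := by
  obtain ⟨a, rfl, ha⟩ := h
  refine ⟨fun u v => ((mulrows 3 1 (hd (suf ((List.range 3).map (fun u => (List.range 3).map (fun v => a u v)))))
    (suf ((List.range 3).map (fun u => (List.range 3).map (fun v => a u v))))).getD u []).getD v 0, ?_, ?_⟩
  · simp only [List.range_succ, List.range_zero, List.nil_append, List.map_cons, List.map_nil,
      List.cons_append, List.nil_append, suf, addr, frc_eq, hd, mulrows, mulrow, pre, shf, tl0,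
      List.getD_cons_zero, List.getD_cons_succ, irows, irow, hd0, sm]
  · intro u hu v hv
    simp only [List.range_succ, List.range_zero, List.nil_append, List.map_cons, List.map_nil,
      List.cons_append, List.nil_append, suf, addr, frc_eq, hd, mulrows, mulrow, pre, shf, tl0,
      List.getD_cons_zero, List.getD_cons_succ, irows, irow, hd0, sm]
    interval_cases u <;> interval_cases v <;>
    simp [pv, okn, Finset.sum_range_succ, c_shl hx, pv_zero_left, pv_zero_right, ble_dec, ha] <;> ring

theorem step4 (T : ℕ → Bool) (k : ℕ) (M : List (List ℕ)) (h : Rep 4 M (pv (BX K) 4 4 T k)) :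
    Rep 4 (mulrows 4 1 (hd (suf M)) (suf M)) (pv (BX K) 4 4 T (k + 1)) := by
  obtain ⟨a, rfl, ha⟩ := h
  refine ⟨fun u v => ((mulrows 4 1 (hd (suf ((List.range 4).map (fun u => (List.range 4).map (fun v => a u v)))))
    (suf ((List.range 4).map (fun u => (List.range 4).map (fun v => a u v))))).getD u []).getD v 0, ?_, ?_⟩
  · simp only [List.range_succ, List.range_zero, List.nil_append, List.map_cons, List.map_nil,
      List.cons_append, List.nil_append, suf, addr, frc_eq, hd, mulrows, mulrow, pre, shf, tl0,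
      List.getD_cons_zero, List.getD_cons_succ, irows, irow, hd0, sm]
  · intro u hu v hv
    simp only [List.range_succ, List.range_zero, List.nil_append, List.map_cons, List.map_nil,
      List.cons_append, List.nil_append, suf, addr, frc_eq, hd, mulrows, mulrow, pre, shf, tl0,
      List.getD_cons_zero, List.getD_cons_succ, irows, irow, hd0, sm]
    interval_cases u <;> interval_cases v <;>
    simp [pv, okn, Finset.sum_range_succ, c_shl hx, pv_zero_left, pv_zero_right, ble_dec, ha] <;> ring

theorem step5 (T : ℕ → Bool) (k : ℕ) (M : List (List ℕ)) (h : Rep 5 M (pv (BX K) 5 5 T k)) :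
    Rep 5 (mulrows 5 1 (hd (suf M)) (suf M)) (pv (BX K) 5 5 T (k + 1)) := by
  obtain ⟨a, rfl, ha⟩ := h
  refine ⟨fun u v => ((mulrows 5 1 (hd (suf ((List.range 5).map (fun u => (List.range 5).map (fun v => a u v)))))
    (suf ((List.range 5).map (fun u => (List.range 5).map (fun v => a u v))))).getD u []).getD v 0, ?_, ?_⟩
  · simp only [List.range_succ, List.range_zero, List.nil_append, List.map_cons, List.map_nil,
      List.cons_append, List.nil_append, suf, addr, frc_eq, hd, mulrows, mulrow, pre, shf, tl0,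
      List.getD_cons_zero, List.getD_cons_succ, irows, irow, hd0, sm]
  · intro u hu v hv
    simp only [List.range_succ, List.range_zero, List.nil_append, List.map_cons, List.map_nil,
      List.cons_append, List.nil_append, suf, addr, frc_eq, hd, mulrows, mulrow, pre, shf, tl0,
      List.getD_cons_zero, List.getD_cons_succ, irows, irow, hd0, sm]
    interval_cases u <;> interval_cases v <;>
    simp [pv, okn, Finset.sum_range_succ, c_shl hx, pv_zero_left, pv_zero_right, ble_dec, ha] <;> ring


/-- everything about the vector recursion for letters up to `m` -/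
def FamOK (K : Type*) [CommRing K] (m : ℕ) : Prop :=
  (∀ (T : ℕ → Bool) (k : ℕ) (M : List (List ℕ)), Rep m M (pv (BX K) m m T k) →
    Rep m (mulrows m 1 (hd (suf M)) (suf M)) (pv (BX K) m m T (k + 1))) ∧
  (∀ (T : ℕ → Bool) (k : ℕ) (M : List (List ℕ)), Rep m M (pv (BX K) m m T k) →
    ColOK m T k K (hd (suf M))) ∧
  (∀ t T : ℕ → Bool, (∀ u, t u = T u) → Rep m (irows m t m m 1) (pv (BX K) m m T 0))

theorem famOK3 : FamOK K 3 := ⟨step3 hx, col3, init3 hx⟩
theorem famOK4 : FamOK K 4 := ⟨step4 hx, col4, init4 hx⟩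
theorem famOK5 : FamOK K 5 := ⟨step5 hx, col5, init5 hx⟩

end

end Helper8.NS
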