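import Pool.Agent.Helper8.NS.Spec1

/-! Correctness of the kernel evaluation, part 2: families, rows. -/

namespace Helper8.NS
open Finset Helper23.NS

section
variable {K : Type*} [CommRing K]

theorem fam_spec {m : ℕ} (hF : FamOK K m) (T : ℕ → Bool) : ∀ n M k0,
    Rep m M (pv (BX K) m m T k0) → ∀ k < n, ColOK m T (k0 + k) K ((fam m n M).getD k [])
  | 0, _, _, _, k, hk => absurd hk (Nat.not_lt_zero k)
  | n + 1, M, k0, h, k, hk => by
    cases k with
    | zero => exact hF.2.1 T k0 M h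
    | succ k =>
      have := fam_spec hF T n _ (k0 + 1) (hF.1 T k0 M h) k (by omega)
      rw [show k0 + (k + 1) = k0 + 1 + k by ring]
      simpa [fam] using this

theorem fam_length (m : ℕ) : ∀ n M, (fam m n M).length = n
  | 0, _ => rfl
  | n + 1, M => by simp [fam, fam_length m n]

theorem pv_dvd (x : K) (mx s : ℕ) (T : ℕ → Bool) : ∀ k u v, x ^ ((k + 1) * s) ∣ pv x mx s T k u v
  | 0, u, v => by
    unfold pv
    split_ifs with h
    · simp only [okn, Bool.and_eq_true, decide_eq_true_eq] at h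
      exact pow_dvd_pow _ (by omega)
    · exact dvd_zero _
  | k + 1, u', v' => by
    unfold pv
    split_ifs with h
    · simp only [okn, Bool.and_eq_true, decide_eq_true_eq] at h
      rw [show (k + 1 + 1) * s = s + (k + 1) * s by ring, pow_add]
      refine mul_dvd_mul (pow_dvd_pow _ (by omega)) ?_
      refine Finset.dvd_sum fun u _ => Finset.dvd_sum fun v _ => ?_
      split_ifs
      · exact pv_dvd x mx s T k u v
      · exact dvd_zero _
    · exact dvd_zero _

theorem PP_zero {x : K} (hx : x ^ 641 = 0) (mx s : ℕ) (T1 T2 : ℕ → Bool) (z : K) (k : ℕ)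
    (h : 641 ≤ (k + 1) * s) : PP x mx s T1 T2 z (k + 1) = 0 := by
  have h0 : x ^ ((k + 1) * s) = 0 := by
    obtain ⟨c, hc⟩ := Nat.exists_eq_add_of_le h
    rw [hc, pow_add, hx, zero_mul]
  have : x ^ ((k + 1) * s) ∣ PP x mx s T1 T2 z (k + 1) := by
    unfold PP
    refine Finset.dvd_sum fun u _ => Finset.dvd_sum fun v _ => ?_
    split_ifs
    · exact pv_dvd x mx s T1 k u v
    · exact dvd_zero _
  rw [h0] at this
  exact zero_dvd_iff.mp this

theorem getD_sums : ∀ (L : List (List ℕ)) (k : ℕ), (sums L).getD k 0 = sm 0 (L.getD k [])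
  | [], k => by simp [sums, sm]
  | r :: rs, 0 => by simp [sums, frc_eq]
  | r :: rs, k + 1 => by simpa [sums, frc_eq] using getD_sums rs k

theorem getD_heads : ∀ (L : List (List ℕ)) (k : ℕ), (heads L).getD k 0 = hd0 (L.getD k [])
  | [], k => by simp [heads, hd0]
  | r :: rs, 0 => by simp [heads]
  | r :: rs, k + 1 => by simpa [heads] using getD_heads rs k

theorem getD_tails : ∀ (L : List (List ℕ)) (k : ℕ), (tails L).getD k 0 = sm 0 (tl0 (L.getD k []))
  | [], k => by simp [tails, sm, tl0]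
  | r :: rs, 0 => by simp [tails, frc_eq]
  | r :: rs, k + 1 => by simpa [tails, frc_eq] using getD_tails rs k

/-- all values of the family are correct -/
theorem fam_all (hx : (BX K) ^ 641 = 0) {m : ℕ} (hF : FamOK K m) (t T : ℕ → Bool)
    (ht : ∀ u, t u = T u) {n : ℕ} (hn : 641 ≤ (n + 1) * m) (k : ℕ) :
    ColOK m T k K ((fam m n (irows m t m m 1)).getD k []) := by
  by_cases hk : k < n
  · have := fam_spec hF T n _ 0 (hF.2.2 t T ht) k hk
    rwa [zero_add] at this
  · have h1 : (fam m n (irows m t m m 1)).getD k [] = [] := by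
      apply List.getD_eq_default
      rw [fam_length]; omega
    have h2 : 641 ≤ (k + 1) * m := hn.trans (Nat.mul_le_mul_right _ (by omega))
    rw [h1]
    refine ⟨?_, ?_, ?_⟩ <;> rw [PP_zero hx _ _ _ _ _ _ h2] <;> simp [sm, hd0, tl0]

/-! ### H lists -/

theorem mul_zero_left (m : ℕ) : mul 0 m = 0 := by
  rw [show mul 0 m = red (Nat.mul 0 m) from rfl, red_eq]; simp

theorem getD_interH (m : ℕ) : ∀ (l : List ℕ) (k : ℕ),
    (interH m l).getD (2 * k) 0 = l.getD k 0 ∧
    (interH m l).getD (2 * k + 1) 0 = mul (l.getD k 0) m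
  | [], k => by simp [interH, mul_zero_left]
  | p :: ps, 0 => by simp [interH, frc_eq]
  | p :: ps, k + 1 => by
    have := getD_interH m ps k
    rw [show 2 * (k + 1) = 2 * k + 1 + 1 by ring]
    simpa [interH, frc_eq] using this

theorem c_interH (hx : (BX K) ^ 641 = 0) (m : ℕ) (l : List ℕ) (F : ℕ → K)
    (h : ∀ k, ((l.getD k 0 : ℕ) : K) = F k) (k : ℕ) :
    (((interH m l).getD k 0 : ℕ) : K) = HH F (m : K) k := by
  unfold HH
  have h1 := getD_interH m l (k / 2)
  rcases Nat.mod_two_eq_zero_or_one k with h2 | h2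
  · have h3 : k = 2 * (k / 2) := by omega
    rw [h2, pow_zero, mul_one, ← h, ← h1.1, ← h3]
  · have h3 : k = 2 * (k / 2) + 1 := by omega
    rw [h2, pow_one, ← h, ← c_mul hx, ← h1.2, ← h3]

/-! ### rows -/

theorem c_gen (hx : (BX K) ^ 641 = 0) (A P : ℕ) (y z : ℕ → K)
    (hy : ∀ j, y (j + 2) = A * y j + z j) (hz : ∀ j, z (j + 2) = P * z j) :
    ∀ n j (y0 y1 z0 z1 : ℕ), (y0 : K) = y j → (y1 : K) = y (j + 1) → (z0 : K) = z j →
      (z1 : K) = z (j + 1) → ∀ i, (((gen A P n y0 y1 z0 z1).getD i 0 : ℕ) : K) =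
        if i < n then y (j + i) else 0
  | 0, _, _, _, _, _, _, _, _, _, i => by simp [gen]
  | n + 1, j, y0, y1, z0, z1, hy0, hy1, hz0, hz1, i => by
    unfold gen
    by_cases hc : y0 = 0 ∧ y1 = 0 ∧ z0 = 0 ∧ z1 = 0
    · obtain ⟨rfl, rfl, rfl, rfl⟩ := hc
      have key : ∀ i, y (j + i) = 0 ∧ y (j + i + 1) = 0 ∧ z (j + i) = 0 ∧ z (j + i + 1) = 0 := by
        intro i
        induction i with
        | zero => simp [← hy0, ← hy1, ← hz0, ← hz1]
        | succ i ih =>
          refine ⟨ih.2.1, ?_, ih.2.2.2, ?_⟩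
          · rw [show j + (i + 1) + 1 = j + i + 2 by ring, hy, ih.1, ih.2.2.1]; simp
          · rw [show j + (i + 1) + 1 = j + i + 2 by ring, hz, ih.2.2.1]; simp
      simp [(key i).1]
    · have hb : (Nat.beq y0 0 && (Nat.beq y1 0 && (Nat.beq z0 0 && Nat.beq z1 0))) = false := by
        rw [← Bool.not_eq_true]
        intro h
        simp only [Bool.and_eq_true] at h
        exact hc ⟨Nat.eq_of_beq_eq_true h.1, Nat.eq_of_beq_eq_true h.2.1,
          Nat.eq_of_beq_eq_true h.2.2.1, Nat.eq_of_beq_eq_true h.2.2.2⟩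
      rw [hb]
      simp only [cond_false, frc_eq]
      cases i with
      | zero => simp [hy0]
      | succ i =>
        have := c_gen hx A P y z hy hz n (j + 1) y1 (red (Nat.add (Nat.mul A y0) z0)) z1 (mul P z0)
          hy1 (by rw [c_red hx, show Nat.add (Nat.mul A y0) z0 = A * y0 + z0 from rfl]; push_cast
                  rw [hy0, hz0, show j + 1 + 1 = j + 2 from rfl, hy]) hz1
          (by rw [c_mul hx, hz0, show j + 1 + 1 = j + 2 from rfl, hz]) i
        rw [List.getD_cons_succ, this]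
        simp only [add_lt_add_iff_right, show j + (i + 1) = j + 1 + i by ring]

theorem pal_zero (P H : K) : pal 0 P H = 1 := by simp [pal]
theorem pal_one (P H : K) : pal 1 P H = H := by simp [pal]
theorem pal_add_two (n : ℕ) (P H : K) : pal (n + 2) P H = P * pal n P H := by
  unfold pal
  rw [show (n + 2) / 2 = n / 2 + 1 by omega, show (n + 2) % 2 = n % 2 by omega, pow_succ]
  ring

/-- entry `j` (for `a = j+1`) of a row -/
def yy (P H Pp Hp p h : K) (j : ℕ) : K :=
  (∑ s ∈ range j, pal s Pp Hp * p * pal (j - 1 - s) P H) + pal j Pp Hp * h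

def zz (P H Hp p : K) (j : ℕ) : K := p * (pal (j + 1) P H + Hp * pal j P H)

theorem yy_rec (P H Pp Hp p h : K) (j : ℕ) :
    yy P H Pp Hp p h (j + 2) = Pp * yy P H Pp Hp p h j + zz P H Hp p j := by
  unfold yy zz
  rw [Finset.sum_range_succ', Finset.sum_range_succ']
  have : ∀ s ∈ range j, pal (s + 1 + 1) Pp Hp * p * pal (j + 2 - 1 - (s + 1 + 1)) P H
      = Pp * (pal s Pp Hp * p * pal (j - 1 - s) P H) := by
    intro s hs
    rw [Finset.mem_range] at hs
    rw [show s + 1 + 1 = s + 2 from rfl, pal_add_two, show j + 2 - 1 - (s + 2) = j - 1 - s by omega]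
    ring
  rw [Finset.sum_congr rfl this, ← Finset.mul_sum, pal_add_two]
  rw [show j + 2 - 1 - (0 + 1) = j by omega, show j + 2 - 1 - 0 = j + 1 by omega]
  simp only [zero_add, pal_zero, pal_one]
  ring

theorem zz_rec (P H Hp p : K) (j : ℕ) : zz P H Hp p (j + 2) = P * zz P H Hp p j := by
  unfold zz
  rw [show j + 2 + 1 = j + 1 + 2 by ring, pal_add_two, pal_add_two]; ring

theorem c_row (hx : (BX K) ^ 641 = 0) (P H Pp Hp p h n i : ℕ) :
    (((row P H Pp Hp p h n).getD i 0 : ℕ) : K) =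
      if i < n then yy (P : K) H Pp Hp p h i else 0 := by
  unfold row
  have := c_gen hx Pp P (yy (P : K) H Pp Hp p h) (zz (P : K) H Hp p)
    (yy_rec _ _ _ _ _ _) (zz_rec _ _ _ _) n 0 h (red (Nat.add p (Nat.mul Hp h)))
    (mul p (Nat.add H Hp)) (mul p (red (Nat.add P (Nat.mul Hp H))))
    (by simp [yy, pal_zero])
    (by
      rw [c_red hx, show Nat.add p (Nat.mul Hp h) = p + Hp * h from rfl]
      simp [yy, pal_zero, pal_one])
    (by
      rw [c_mul hx, show Nat.add H Hp = H + Hp from rfl]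
      simp [zz, pal_zero, pal_one])
    (by
      rw [c_mul hx, c_red hx, show Nat.add P (Nat.mul Hp H) = P + Hp * H from rfl]
      have h2 := pal_add_two 0 (P : K) H
      simp only [zero_add] at h2
      simp [zz, h2, pal_zero, pal_one])
    i
  rw [this, zero_add]

theorem fl_eq {β : Type} : ∀ (n : ℕ) (l : List ℕ) (r : β), fl n l r = r
  | 0, _, _ => rfl
  | n + 1, [], _ => rfl
  | n + 1, a :: as, r => by simp [fl, frc_eq, fl_eq n as r]

theorem getD_addl : ∀ (a b : List ℕ) (i : ℕ), (addl a b).getD i 0 = a.getD i 0 + b.getD i 0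
  | [], l, i => by simp [addl]
  | a :: as, [], i => by simp [addl]
  | a :: as, b :: bs, 0 => by simp [addl, frc_eq]
  | a :: as, b :: bs, i + 1 => by
    have := getD_addl as bs i
    simpa [addl, frc_eq] using this

theorem hd0_eq (l : List ℕ) : hd0 l = l.getD 0 0 := by cases l <;> simp [hd0]
theorem getD_tl0 (l : List ℕ) (k : ℕ) : (tl0 l).getD k 0 = l.getD (k + 1) 0 := by
  cases l <;> simp [tl0]

theorem c_rows (hx : (BX K) ^ 641 = 0) (P H p h : ℕ → K) :
    ∀ (f k : ℕ) (ps hs ts us acc : List ℕ),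
    (∀ i, ((ps.getD i 0 : ℕ) : K) = P (k + i)) → (∀ i, ((hs.getD i 0 : ℕ) : K) = H (k + i)) →
    (∀ i, ((ts.getD i 0 : ℕ) : K) = p (k + i)) → (∀ i, ((us.getD i 0 : ℕ) : K) = h (k + i)) →
    ∀ j, (((rows f k ps hs ts us acc).getD j 0 : ℕ) : K) = ((acc.getD j 0 : ℕ) : K) +
      ∑ i ∈ range f, if j < 640 / (k + i) then
        yy (P (k + i)) (H (k + i)) (P (k + i + 1)) (H (k + i + 1)) (p (k + i)) (h (k + i)) j else 0
  | 0, k, ps, hs, ts, us, acc, _, _, _, _, j => by simp [rows]
  | f + 1, k, ps, hs, ts, us, acc, h1, h2, h3, h4, j => by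
    unfold rows
    simp only [fl_eq]
    rw [c_rows hx P H p h f (Nat.succ k) (tl0 ps) (tl0 hs) (tl0 ts) (tl0 us) _
      (fun i => by rw [getD_tl0, h1]; congr 1; simp only [Nat.succ_eq_add_one]; ring)
      (fun i => by rw [getD_tl0, h2]; congr 1; simp only [Nat.succ_eq_add_one]; ring)
      (fun i => by rw [getD_tl0, h3]; congr 1; simp only [Nat.succ_eq_add_one]; ring)
      (fun i => by rw [getD_tl0, h4]; congr 1; simp only [Nat.succ_eq_add_one]; ring) j]
    rw [getD_addl, Nat.cast_add, c_row hx, Finset.sum_range_succ']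
    simp only [hd0_eq, getD_tl0, h1, h2, h3, h4, add_zero, zero_add]
    have : ∀ i, k.succ + i = k + (i + 1) := fun i => by simp only [Nat.succ_eq_add_one]; ring
    simp only [this]
    rw [show Nat.div 640 k = 640 / k from rfl]
    ring

end

end Helper8.NS
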