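import Pool.Agent.Helper8.NS.Spec2

/-! Correctness of the kernel evaluation, part 3: the factors `RA`, `LA`, the total `EE`. -/

namespace Helper8.NS
open Finset Helper23.NS

section
variable {K : Type*} [CommRing K]

theorem sum_cut (f : ℕ → K) (j : ℕ) :
    (∑ i ∈ range 640, if j < 640 / (1 + i) then f i else 0) = ∑ i ∈ range (640 / (j + 1)), f i := by
  rw [← Finset.sum_filter]
  refine Finset.sum_congr ?_ fun _ _ => rfl
  ext i
  simp only [Finset.mem_filter, Finset.mem_range]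
  have h1 : j < 640 / (1 + i) ↔ (j + 1) * (1 + i) ≤ 640 :=
    Nat.le_div_iff_mul_le (by omega)
  have h2 : i < 640 / (j + 1) ↔ (i + 1) * (j + 1) ≤ 640 :=
    Nat.le_div_iff_mul_le (by omega)
  rw [h1, h2]
  constructor
  · rintro ⟨_, h⟩; linarith [mul_comm (j + 1) (1 + i), show (1 + i) * (j + 1) = (i + 1) * (j + 1) by ring]
  · intro h
    refine ⟨?_, ?_⟩
    · nlinarith
    · linarith [show (j + 1) * (1 + i) = (i + 1) * (j + 1) by ring]

theorem ra_term (P H Pp Hp : K) (j : ℕ) :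
    (∑ s ∈ range (j + 1), pal s Pp Hp * pal (j + 1 - s) P H) = yy P H Pp Hp P H j := by
  unfold yy
  rw [Finset.sum_range_succ, show j + 1 - j = 1 by omega, pal_one]
  congr 1
  refine Finset.sum_congr rfl fun s hs => ?_
  rw [Finset.mem_range] at hs
  rw [show j + 1 - s = j - 1 - s + 2 by omega, pal_add_two]; ring

theorem c_cons {z : ℕ} {l : List ℕ} {F : ℕ → K} (h0 : (z : K) = F 0)
    (h : ∀ k, ((l.getD k 0 : ℕ) : K) = F (k + 1)) (k : ℕ) :
    (((z :: l).getD k 0 : ℕ) : K) = F k := by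
  cases k with
  | zero => simpa using h0
  | succ k => simpa using h k

theorem c_RAl (hx : (BX K) ^ 641 = 0) {s : ℕ} (hF : FamOK K s) {n md : ℕ}
    (hn : 641 ≤ (n + 1) * s) (hm : (md : K) = mid (BX K) s s) (j : ℕ) (hj : j < 641) :
    (((RAl s n md).getD j 0 : ℕ) : K) = RA (BX K) (s + 1) (j + 1) 640 := by
  unfold RAl
  simp only []
  set ps := sums (fam s n (irows s (fun _ => true) s s 1)) with hps
  have h1 : ∀ k, ((ps.getD k 0 : ℕ) : K) = PR (BX K) (s + 1) (k + 1) := by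
    intro k
    have := (fam_all hx hF (fun _ => true) tt (fun _ => rfl) hn k).1
    rw [hps, getD_sums]; exact this
  have h2 : ∀ k, (((1 :: ps).getD k 0 : ℕ) : K) = PR (BX K) (s + 1) k :=
    c_cons (by simp [PR, PP]) h1
  have h3 : ∀ k, (((interH md (1 :: ps)).getD k 0 : ℕ) : K) = HR (BX K) (s + 1) k := by
    intro k
    rw [c_interH hx md _ _ h2 k, hm]; rfl
  have h1' : ∀ i, ((ps.getD i 0 : ℕ) : K) = PR (BX K) (s + 1) (1 + i) := by
    intro i; rw [h1, Nat.add_comm 1 i]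
  have h3' : ∀ i, (((tl0 (interH md (1 :: ps))).getD i 0 : ℕ) : K) = HR (BX K) (s + 1) (1 + i) := by
    intro i; rw [getD_tl0, h3, Nat.add_comm 1 i]
  rw [c_rows hx (PR (BX K) (s + 1)) (HR (BX K) (s + 1)) (PR (BX K) (s + 1)) (HR (BX K) (s + 1))
    640 1 _ _ _ _ _ h1' h3' h1' h3' j, sum_cut, c_row hx, if_pos hj]
  unfold RA
  rw [Finset.sum_range_succ', add_comm]
  congr 1
  · refine Finset.sum_congr rfl fun k _ => ?_
    rw [ra_term]; simp only [add_comm 1 k]
  · rw [ra_term, hd0_eq, hd0_eq, h1', h3']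
    simp [PR, PP, HR, HH]

theorem c_LAl (hx : (BX K) ^ 641 = 0) {q : ℕ} (hF : FamOK K q) {n md : ℕ}
    (hn : 641 ≤ (n + 1) * q) (hm : (md : K) = mid (BX K) q q) (j : ℕ) :
    (((LAl q n md).getD j 0 : ℕ) : K) = LA (BX K) q (j + 1) 640 := by
  unfold LAl
  simp only []
  set ms := fam q n (irows q (fun u => Nat.ble 2 u) q q 1) with hms
  set ns := fam q n (irows q (fun u => Nat.beq 1 u) q q 1) with hns
  have hA := fun k => fam_all hx hF (fun u => Nat.ble 2 u) ge2 (fun u => ble_dec 2 u) hn k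
  have hB := fun k => fam_all hx hF (fun u => Nat.beq 1 u) eq1 (fun u => by
    unfold eq1
    by_cases h : u = 1
    · subst h; rfl
    · rw [decide_eq_false h, ← Bool.not_eq_true]
      intro h'; exact h (Nat.eq_of_beq_eq_true h').symm) hn k
  rw [← hms] at hA
  rw [← hns] at hB
  have p11 : ∀ i, (((tails ms).getD i 0 : ℕ) : K) = P11 (BX K) q (1 + i) := by
    intro i; rw [getD_tails, (hA i).2.2, Nat.add_comm 1 i]; rfl
  have p12 : ∀ i, (((heads ms).getD i 0 : ℕ) : K) = P12 (BX K) q (1 + i) := by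
    intro i; rw [getD_heads, (hA i).2.1, Nat.add_comm 1 i]; rfl
  have f1 : ∀ i, (((1 :: sums ms).getD i 0 : ℕ) : K) = F1 (BX K) q i :=
    c_cons (by simp [F1, PP]) (fun i => by rw [getD_sums, (hA i).1]; rfl)
  have f2 : ∀ i, (((0 :: sums ns).getD i 0 : ℕ) : K) = F2 (BX K) q i :=
    c_cons (by simp [F2, PP]) (fun i => by rw [getD_sums, (hB i).1]; rfl)
  have h1 : ∀ i, (((tl0 (interH md (1 :: sums ms))).getD i 0 : ℕ) : K) = H1 (BX K) q (1 + i) := by
    intro i; rw [getD_tl0, c_interH hx md _ _ f1, hm, Nat.add_comm 1 i]; rfl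
  have h2 : ∀ i, (((tl0 (interH md (0 :: sums ns))).getD i 0 : ℕ) : K) = H2 (BX K) q (1 + i) := by
    intro i; rw [getD_tl0, c_interH hx md _ _ f2, hm, Nat.add_comm 1 i]; rfl
  rw [c_rows hx (P11 (BX K) q) (H1 (BX K) q) (P12 (BX K) q) (H2 (BX K) q) 640 1 _ _ _ _ _
    p11 h1 p12 h2 j, sum_cut]
  unfold LA
  simp only [List.getD_nil, Nat.cast_zero, zero_add]
  refine Finset.sum_congr rfl fun k _ => ?_
  unfold yy
  simp only [add_comm 1 k, show k + 1 + 1 = k + 2 from rfl, Nat.add_sub_cancel]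
  congr 1

/-- the convolution in `lb` -/
def conv (lm lmid ro : K) (j : ℕ) : K := ∑ i ∈ range j, pal i lm lmid * ro ^ (j - 1 - i)

theorem conv_succ (lm lmid ro : K) (j : ℕ) :
    conv lm lmid ro (j + 1) = ro * conv lm lmid ro j + pal j lm lmid := by
  unfold conv
  rw [Finset.sum_range_succ, Finset.mul_sum]
  rw [show j + 1 - 1 - j = 0 by omega, pow_zero, mul_one]
  congr 1
  refine Finset.sum_congr rfl fun i hi => ?_
  rw [Finset.mem_range] at hi
  rw [show j + 1 - 1 - i = j - 1 - i + 1 by omega, pow_succ]; ring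

theorem c_fin (hx : (BX K) ^ 641 = 0) (ra ro lm : ℕ) (lmid : K) :
    ∀ (n j : ℕ) (r la : List ℕ) (cv p0 p1 acc : ℕ), (cv : K) = conv (lm : K) lmid ro j →
      (p0 : K) = pal j (lm : K) lmid → (p1 : K) = pal (j + 1) (lm : K) lmid →
      ((fin ra ro lm n r la cv p0 p1 acc : ℕ) : K) = acc + ∑ i ∈ range n,
        ((ra : K) * conv (lm : K) lmid ro (j + i) + ((la.getD i 0 : ℕ) : K)) * ((r.getD i 0 : ℕ) : K)
  | 0, j, r, la, cv, p0, p1, acc, _, _, _ => by simp [fin]
  | n + 1, j, r, la, cv, p0, p1, acc, h1, h2, h3 => by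
    unfold fin
    simp only [frc_eq]
    rw [c_fin hx ra ro lm lmid n (j + 1) _ _ _ _ _ _
      (by rw [c_red hx, show Nat.add (Nat.mul ro cv) p0 = ro * cv + p0 from rfl, conv_succ]
          push_cast; rw [h1, h2]) h3
      (by rw [c_mul hx, h2, ← pal_add_two])]
    rw [c_red hx, show Nat.add acc (Nat.mul (Nat.add (mul ra cv) (hd0 la)) (hd0 r))
      = acc + (mul ra cv + hd0 la) * hd0 r from rfl]
    rw [Finset.sum_range_succ']
    push_cast
    rw [c_mul hx, h1, hd0_eq, hd0_eq]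
    simp only [getD_tl0, show ∀ i, j + 1 + i = j + (i + 1) from fun i => by ring, add_zero]
    ring

theorem c_spal (hx : (BX K) ^ 641 = 0) (lm : ℕ) (lmid : K) : ∀ (n j p0 p1 acc : ℕ),
    (p0 : K) = pal j (lm : K) lmid → (p1 : K) = pal (j + 1) (lm : K) lmid →
    ((spal lm n p0 p1 acc : ℕ) : K) = acc + ∑ i ∈ range n, pal (j + i) (lm : K) lmid
  | 0, j, p0, p1, acc, _, _ => by simp [spal]
  | n + 1, j, p0, p1, acc, h2, h3 => by
    unfold spal
    simp only [frc_eq]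
    rw [c_spal hx lm lmid n (j + 1) _ _ _ h3 (by rw [c_mul hx, h2, ← pal_add_two]),
      show Nat.add acc p0 = acc + p0 from rfl, Finset.sum_range_succ']
    push_cast
    rw [h2]
    simp only [show ∀ i, j + 1 + i = j + (i + 1) from fun i => by ring, add_zero]
    ring

theorem c_spow (hx : (BX K) ^ 641 = 0) (ro : ℕ) : ∀ (n p acc : ℕ),
    ((spow ro n p acc : ℕ) : K) = acc + ∑ i ∈ range n, (p : K) * (ro : K) ^ i
  | 0, p, acc => by simp [spow]
  | n + 1, p, acc => by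
    unfold spow
    simp only [frc_eq]
    rw [c_spow hx ro n, show Nat.add acc p = acc + p from rfl, Finset.sum_range_succ', c_mul hx]
    push_cast
    have : ∀ i, (p : K) * (ro : K) ^ (i + 1) = (ro : K) * p * (ro : K) ^ i := fun i => by ring
    simp only [this, pow_zero, mul_one]
    ring

theorem c_bsh (hx : (BX K) ^ 641 = 0) {q : ℕ} {lm' lmid' ro' rmid' : ℕ}
    (h1 : (lm' : K) = lm (BX K) q) (h2 : (lmid' : K) = lmid (BX K) q)
    (h3 : (ro' : K) = ro (BX K) q) (h4 : (rmid' : K) = rmid (BX K) q) :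
    ((bsh lm' lmid' ro' rmid' : ℕ) : K) = Bsh (BX K) q 640 := by
  unfold bsh Bsh
  rw [c_mul hx, c_mul hx, c_red hx, c_red hx, c_spow hx,
    c_spal hx lm' (lmid' : K) 641 0 1 lmid' 0 (by simp [pal_zero]) (by simp [pal_one])]
  simp only [Nat.cast_zero, zero_add, Nat.cast_one, one_mul, Nat.succ_eq_add_one, Nat.cast_add,
    h1, h2, h3, h4]
  ring

theorem c_tot (hx : (BX K) ^ 641 = 0) {s : ℕ} (hF : FamOK K s) (hF' : FamOK K (s + 1))
    {n m midR midL ra' ro' lm' lmid' : ℕ}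
    (hn : 641 ≤ (n + 1) * s) (hm : 641 ≤ (m + 1) * (s + 1))
    (hR : (midR : K) = mid (BX K) s s) (hL : (midL : K) = mid (BX K) (s + 1) (s + 1))
    (h1 : (lm' : K) = lm (BX K) (s + 1)) (h2 : (lmid' : K) = lmid (BX K) (s + 1))
    (h3 : (ro' : K) = ro (BX K) (s + 1)) (h4 : (ra' : K) = ra (BX K) (s + 1)) :
    ((tot s (s + 1) n m midR midL ra' ro' lm' lmid' : ℕ) : K) =
      ∑ a ∈ range 641, (LA (BX K) (s + 1) (a + 1) 640 + lb (BX K) (s + 1) (a + 1)) *
        RA (BX K) (s + 1) (a + 1) 640 := by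
  unfold tot
  rw [c_fin hx ra' ro' lm' (lmid' : K) 641 0 _ _ 0 1 lmid' 0 (by simp [conv])
    (by simp [pal_zero]) (by simp [pal_one])]
  rw [Nat.cast_zero, zero_add]
  refine Finset.sum_congr rfl fun a ha => ?_
  rw [Finset.mem_range] at ha
  rw [c_RAl hx hF hn hR a ha, c_LAl hx hF' hm hL a, zero_add, add_comm]
  congr 2
  unfold lb conv
  rw [h1, h2, h3, h4]
  simp only [Nat.add_sub_cancel]
  congr 1

theorem pol_nil : pol [] = 0 := rfl
theorem c_pol_nil : ((pol [] : ℕ) : K) = 0 := by rw [pol_nil, Nat.cast_zero]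
set_option maxRecDepth 10000 in
theorem pol_cons (a : ℕ) (l : List ℕ) :
    pol (a :: l) = Nat.add a (Nat.shiftLeft (pol l) 448) := rfl
theorem c_pol_cons (a : ℕ) (l : List ℕ) :
    ((pol (a :: l) : ℕ) : K) = a + (BX K) * ((pol l : ℕ) : K) := by
  rw [pol_cons, shiftLeft_lem', Nat.add_eq, BX,
    Nat.cast_add, Nat.cast_mul, Nat.cast_pow, Nat.cast_ofNat, mul_comm]

theorem c_ee4 (hx : (BX K) ^ 641 = 0) : ((ee4 : ℕ) : K) = EE (BX K) 4 640 := by
  unfold ee4 EE
  rw [c_shl hx, show ∀ a b, Nat.add a b = a + b from fun _ _ => rfl, Nat.cast_add,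
    c_tot hx (s := 3) (famOK3 hx) (famOK4 hx) (by norm_num) (by norm_num), c_bsh hx (q := 4)]
  · ring
  all_goals
    simp only [c_pol_cons, c_pol_nil]
    simp [mid, lm, lmid, ro, ra, rmid, Finset.sum_range_succ]
    ring

theorem c_ee5 (hx : (BX K) ^ 641 = 0) : ((ee5 : ℕ) : K) = EE (BX K) 5 640 := by
  unfold ee5 EE
  rw [c_shl hx, show ∀ a b, Nat.add a b = a + b from fun _ _ => rfl, Nat.cast_add,
    c_tot hx (s := 4) (famOK4 hx) (famOK5 hx) (by norm_num) (by norm_num), c_bsh hx (q := 5)]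
  · ring
  all_goals
    simp only [c_pol_cons, c_pol_nil]
    simp [mid, lm, lmid, ro, ra, rmid, Finset.sum_range_succ]
    ring

end

end Helper8.NS
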