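import Pool.Agent.Helper8.NS.Spec3

/-! Correctness of the kernel evaluation, part 4: the sum `E6`. -/

namespace Helper8.NS
open Finset Helper23.NS

section
variable {K : Type*} [CommRing K]

def TT (x : K) (q : ℕ) : K := ∑ t ∈ range (q + 1), x ^ (q + t)

theorem TT_succ (x : K) (q : ℕ) : TT x (q + 1) = x * TT x q + x ^ (2 * q + 2) := by
  unfold TT
  rw [Finset.sum_range_succ, Finset.mul_sum]
  congr 1
  · refine Finset.sum_congr rfl fun t _ => ?_
    rw [show q + 1 + t = q + t + 1 by ring, pow_succ]; ring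
  · congr 1; ring

theorem pp_succ (x : K) (q : ℕ) (hq : 1 ≤ q) : pp x (q + 1) = x * pp x q + TT x (q + 1) := by
  unfold pp
  have h1 : ∀ u, (∑ v ∈ range (q + 1 + 1), if okn (q + 1) (q + 1) u v then x ^ (u + v) else 0)
      = (∑ v ∈ range (q + 1), if okn (q + 1) (q + 1) u v then x ^ (u + v) else 0)
        + if okn (q + 1) (q + 1) u (q + 1) then x ^ (u + (q + 1)) else 0 :=
    fun u => Finset.sum_range_succ _ _
  rw [Finset.sum_congr rfl (fun u _ => h1 u), Finset.sum_add_distrib]
  have h2 : (∑ u ∈ range (q + 1 + 1), if okn (q + 1) (q + 1) u (q + 1) then x ^ (u + (q + 1)) else 0)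
      = ∑ w ∈ range (q + 1), x ^ (q + 2 + w) := by
    rw [Finset.sum_range_succ']
    rw [if_neg (by simp [okn]), add_zero]
    refine Finset.sum_congr rfl fun w hw => ?_
    rw [Finset.mem_range] at hw
    rw [if_pos (by
      simp only [okn, Bool.and_eq_true, decide_eq_true_eq]; omega)]
    congr 1; ring
  have h3 : TT x (q + 1) = x ^ (q + 1) + ∑ w ∈ range (q + 1), x ^ (q + 2 + w) := by
    unfold TT
    rw [Finset.sum_range_succ', add_comm]
    congr 1
    refine Finset.sum_congr rfl fun w _ => ?_
    congr 1; ring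
  have h4 : (∑ u ∈ range (q + 1 + 1), ∑ v ∈ range (q + 1),
      if okn (q + 1) (q + 1) u v then x ^ (u + v) else 0)
      = x * (∑ u ∈ range (q + 1), ∑ v ∈ range (q + 1), if okn q q u v then x ^ (u + v) else 0)
        + x ^ (q + 1) := by
    rw [Finset.sum_range_succ']
    have h5 : (∑ v ∈ range (q + 1), if okn (q + 1) (q + 1) 0 v then x ^ (0 + v) else 0) = 0 := by
      refine Finset.sum_eq_zero fun v _ => ?_
      rw [if_neg (by simp [okn])]
    rw [h5, add_zero, Finset.mul_sum]
    rw [Finset.sum_range_succ' (fun u => ∑ v ∈ range (q + 1),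
        if okn (q + 1) (q + 1) (u + 1) v then x ^ (u + 1 + v) else 0) q,
      Finset.sum_range_succ' (fun i => x * ∑ v ∈ range (q + 1),
        if okn q q i v then x ^ (i + v) else 0) q]
    have h6 : (∑ v ∈ range (q + 1), if okn (q + 1) (q + 1) (0 + 1) v then x ^ (0 + 1 + v) else 0)
        = x ^ (q + 1) := by
      rw [Finset.sum_range_succ, Finset.sum_eq_zero]
      · rw [if_pos (by simp only [okn, Bool.and_eq_true, decide_eq_true_eq]; omega), zero_add]
        congr 1; ring
      · intro v hv
        rw [Finset.mem_range] at hv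
        rw [if_neg (by simp only [okn, Bool.and_eq_true, decide_eq_true_eq]; omega)]
    have h7 : (x * ∑ v ∈ range (q + 1), if okn q q 0 v then x ^ (0 + v) else 0) = 0 := by
      rw [Finset.sum_eq_zero, mul_zero]
      intro v _
      rw [if_neg (by simp [okn])]
    rw [h6, h7, add_zero]
    congr 1
    refine Finset.sum_congr rfl fun w _ => ?_
    rw [Finset.mul_sum]
    refine Finset.sum_congr rfl fun v hv => ?_
    rw [Finset.mem_range] at hv
    by_cases hh : okn q q (w + 1) v = true
    · rw [if_pos hh, if_pos]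
      · rw [show w + 1 + 1 + v = w + 1 + v + 1 by ring, pow_succ]; ring
      · simp only [okn, Bool.and_eq_true, decide_eq_true_eq] at hh ⊢; omega
    · rw [if_neg hh, if_neg, mul_zero]
      intro h8; apply hh
      simp only [okn, Bool.and_eq_true, decide_eq_true_eq] at h8 ⊢; omega
  rw [h2, h3, h4]; ring

theorem mid_even (x : K) (q : ℕ) (hq : 2 ≤ q) (he : q % 2 = 0) :
    mid x (q + 1) (q + 1) = x * mid x q q := by
  unfold mid
  rw [Finset.sum_range_succ', if_neg (by simp), add_zero, Finset.mul_sum]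
  refine Finset.sum_congr rfl fun w _ => ?_
  by_cases hh : q ≤ 2 * w
  · rw [if_pos, if_pos, pow_succ, mul_comm]
    · simp only [Bool.and_eq_true, decide_eq_true_eq]; omega
    · simp only [Bool.and_eq_true, decide_eq_true_eq]; omega
  · rw [if_neg, if_neg, mul_zero]
    · simp only [Bool.and_eq_true, decide_eq_true_eq]; omega
    · simp only [Bool.and_eq_true, decide_eq_true_eq]; omega

theorem mid_odd (x : K) (q : ℕ) (he : q % 2 = 1) :
    mid x (q + 1) (q + 1) = mid x q q + x ^ (q + 1) := by
  unfold mid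
  rw [Finset.sum_range_succ]
  congr 1
  · refine Finset.sum_congr rfl fun w _ => ?_
    by_cases hh : q ≤ 2 * w
    · rw [if_pos, if_pos]
      · simp only [Bool.and_eq_true, decide_eq_true_eq]; omega
      · simp only [Bool.and_eq_true, decide_eq_true_eq]; omega
    · rw [if_neg, if_neg]
      · simp only [Bool.and_eq_true, decide_eq_true_eq]; omega
      · simp only [Bool.and_eq_true, decide_eq_true_eq]; omega
  · rw [if_pos]
    simp only [Bool.and_eq_true, decide_eq_true_eq]; omega

theorem c_geo (hx : (BX K) ^ 641 = 0) (P : ℕ) : ∀ (n c acc : ℕ),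
    ((geo P n c acc : ℕ) : K) = acc + ∑ i ∈ range n, (c : K) * (P : K) ^ i
  | 0, c, acc => by simp [geo]
  | n + 1, c, acc => by
    unfold geo
    by_cases h : c = 0
    · subst h; simp
    · have hb : Nat.beq c 0 = false := by
        rw [← Bool.not_eq_true]; intro h'; exact h (Nat.eq_of_beq_eq_true h')
      rw [hb]
      simp only [cond_false, frc_eq]
      rw [c_geo hx P n, show Nat.add acc c = acc + c from rfl, Finset.sum_range_succ', c_mul hx]
      push_cast
      have : ∀ i, (c : K) * (P : K) ^ (i + 1) = (P : K) * c * (P : K) ^ i := fun i => by ring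
      simp only [this, pow_zero, mul_one]
      ring

theorem c_aa (hx : (BX K) ^ 641 = 0) {P m q : ℕ} (h1 : (P : K) = pp (BX K) q)
    (h2 : (m : K) = mid (BX K) q q) : ((aa P m : ℕ) : K) = AA (BX K) q 640 := by
  unfold aa AA
  rw [c_mul hx, c_red hx, c_geo hx]
  simp only [Nat.cast_zero, zero_add, Nat.cast_one, one_mul, Nat.succ_eq_add_one, Nat.cast_add, h1, h2]
  ring

theorem c_e6l (hx : (BX K) ^ 641 = 0) : ∀ (n q : ℕ) (ev : Bool) (P T m prev acc : ℕ), 2 ≤ q →
    (ev = true ↔ q % 2 = 0) → (P : K) = pp (BX K) q → (T : K) = TT (BX K) q →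
    (m : K) = mid (BX K) q q → (prev : K) = AA (BX K) (q - 1) 640 →
    ((e6l n q ev P T m prev acc : ℕ) : K) = acc + ∑ i ∈ range n,
      (BX K) ^ (q + i) * AA (BX K) (q + i) 640 * AA (BX K) (q + i - 1) 640
  | 0, q, ev, P, T, m, prev, acc, _, _, _, _, _, _ => by simp [e6l]
  | n + 1, q, ev, P, T, m, prev, acc, hq, hev, hP, hT, hm, hprev => by
    unfold e6l
    simp only [frc_eq]
    have hA := c_aa hx hP hm
    have hT' : ((Nat.add (shl T 1) (shl 1 (Nat.add (Nat.mul 2 q) 2)) : ℕ) : K)
        = TT (BX K) (q + 1) := by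
      rw [show Nat.add (shl T 1) (shl 1 (Nat.add (Nat.mul 2 q) 2))
        = shl T 1 + shl 1 (2 * q + 2) from rfl, Nat.cast_add, c_shl hx, c_shl hx, TT_succ, hT]
      simp only [Nat.cast_one, one_mul, pow_one]; ring
    rw [c_e6l hx n (Nat.succ q) (!ev) _ _ _ _ _ (by simp only [Nat.succ_eq_add_one]; omega)
      (by simp only [Nat.succ_eq_add_one]; cases ev <;> simp at hev ⊢ <;> omega)
      (by
        rw [show ∀ a b, Nat.add a b = a + b from fun _ _ => rfl, Nat.cast_add, hT', c_shl hx, hP,
          pow_one, Nat.succ_eq_add_one, pp_succ _ _ (by omega)]; ring)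
      hT'
      (by
        cases ev with
        | true =>
          rw [cond_true, c_shl hx, hm, pow_one, Nat.succ_eq_add_one, mid_even _ _ hq (hev.mp rfl)]
          ring
        | false =>
          have : q % 2 = 1 := by simp at hev; omega
          rw [cond_false, show ∀ a b, Nat.add a b = a + b from fun _ _ => rfl, Nat.cast_add,
            c_shl hx, hm, Nat.succ_eq_add_one, mid_odd _ _ this]
          simp)
      (by rw [hA]; rfl)]
    rw [show ∀ a b, Nat.add a b = a + b from fun _ _ => rfl, Nat.cast_add, c_shl hx, c_mul hx,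
      hA, hprev, Finset.sum_range_succ']
    simp only [Nat.succ_eq_add_one, show ∀ i, q + 1 + i = q + (i + 1) from fun i => by ring, add_zero]
    ring

theorem c_ee6 (hx : (BX K) ^ 641 = 0) : ((ee6 : ℕ) : K) = E6 (BX K) 640 := by
  unfold ee6 E6
  have h5 : ((aa (pol [0,0,0,0,0,4,5,4,3,2,1]) (pol [0,0,0,1,1,1]) : ℕ) : K)
      = AA (BX K) (6 - 1) 640 := by
    apply c_aa hx
    · simp only [c_pol_cons, c_pol_nil]
      simp [pp, okn, Finset.sum_range_succ]
      ring
    · simp only [c_pol_cons, c_pol_nil]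
      simp [mid, Finset.sum_range_succ]
      ring
  rw [c_red hx, c_e6l hx 635 6 true _ _ _ _ _ (by norm_num) (by norm_num) ?_ ?_ ?_ h5]
  · rw [Nat.cast_zero, zero_add, ← Finset.Ico_add_one_right_eq_Icc, Finset.sum_Ico_eq_sum_range,
      show 640 + 1 - 6 = 635 from rfl]
  · simp only [c_pol_cons, c_pol_nil]
    simp [pp, okn, Finset.sum_range_succ]
    ring
  · simp only [c_pol_cons, c_pol_nil]
    simp [TT, Finset.sum_range_succ]
    ring
  · simp only [c_pol_cons, c_pol_nil]
    simp [mid, Finset.sum_range_succ]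
    ring

end

end Helper8.NS
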