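import Pool.Agent.Helper8.NS.Spec4

/-! Correctness of the kernel evaluation, part 5: digits. -/

namespace Helper8.NS
open Finset Helper23.NS

/-- the number with digits `c i, c (i+1), …, c (i+n-1)` in base `2^448` -/
def W (c : ℕ → ℕ) (n i : ℕ) : ℕ := ∑ j ∈ range n, c (i + j) * (2 ^ 448) ^ j

theorem W_succ (c : ℕ → ℕ) (n i : ℕ) : W c (n + 1) i = c i + 2 ^ 448 * W c n (i + 1) := by
  unfold W
  rw [Finset.sum_range_succ', Finset.mul_sum, add_comm]
  simp only [add_zero, pow_zero, mul_one]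
  congr 1
  refine Finset.sum_congr rfl fun j _ => ?_
  rw [show i + 1 + j = i + (j + 1) by ring, pow_succ]; ring

theorem W_lt (c : ℕ → ℕ) : ∀ n i, (∀ j < n, c (i + j) < 2 ^ 448) → W c n i < (2 ^ 448) ^ n
  | 0, i, _ => by simp [W]
  | n + 1, i, h => by
    have h1 := W_lt c n (i + 1) (fun j hj => by
      rw [show i + 1 + j = i + (j + 1) by ring]; exact h _ (by omega))
    have h0 := h 0 (by omega)
    rw [add_zero] at h0
    rw [W_succ, pow_succ]
    calc c i + 2 ^ 448 * W c n (i + 1) < 2 ^ 448 + 2 ^ 448 * W c n (i + 1) :=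
          Nat.add_lt_add_right h0 _
      _ = 2 ^ 448 * (W c n (i + 1) + 1) := by ring
      _ ≤ 2 ^ 448 * (2 ^ 448) ^ n := Nat.mul_le_mul_left _ h1
      _ = (2 ^ 448) ^ n * 2 ^ 448 := mul_comm _ _

theorem W_land (c : ℕ → ℕ) (n i : ℕ) (h : c i < 2 ^ 448) :
    Nat.land (W c (n + 1) i) (Nat.sub (Nat.pow 2 448) 1) = c i := by
  rw [land_lem, W_succ, Nat.add_mul_mod_self_left, Nat.mod_eq_of_lt h]

theorem W_shift (c : ℕ → ℕ) (n i : ℕ) (h : c i < 2 ^ 448) :
    Nat.shiftRight (W c (n + 1) i) 448 = W c n (i + 1) := by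
  rw [show ∀ a e, Nat.shiftRight a e = a / 2 ^ e from fun a e => Nat.shiftRight_eq_div_pow a e,
    W_succ, Nat.add_mul_div_left _ _ (by positivity), Nat.div_eq_of_lt h, zero_add]

theorem chkF_spec (m : ℕ) (c t : ℕ → ℕ) (ht : ∀ g, 23 ≤ g → t (g + 2) = t (g + 1) + t g) :
    ∀ n N i a b k, n ≤ N → (∀ j < N, c (i + j) < 2 ^ 448) → 23 ≤ k → a = t k → b = t (k + 1) →
      chkF m n (W c N i) a b = true → ∀ j < n, 100 * c (i + j) ≤ m * t (k + j)
  | 0, _, _, _, _, _, _, _, _, _, _, _, j, hj => absurd hj (Nat.not_lt_zero j)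
  | n + 1, 0, i, a, b, k, hN, _, _, _, _, _, _, _ => by omega
  | n + 1, N + 1, i, a, b, k, hN, hc, hk, ha, hb, h, j, hj => by
    have h0 := hc 0 (by omega)
    rw [add_zero] at h0
    unfold chkF at h
    simp only [frc_eq, Bool.and_eq_true] at h
    rw [W_land c N i h0, W_shift c N i h0] at h
    obtain ⟨h1, h2⟩ := h
    have h1' : 100 * c i ≤ m * a := Nat.le_of_ble_eq_true h1
    cases j with
    | zero => rw [add_zero, add_zero, ← ha]; exact h1'
    | succ j =>
      have := chkF_spec m c t ht n N (i + 1) b (Nat.add a b) (k + 1) (by omega)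
        (fun j hj => by rw [show i + 1 + j = i + (j + 1) by ring]; exact hc _ (by omega))
        (by omega) hb (by rw [show Nat.add a b = a + b from rfl, ha, hb, ht k hk]; ring) h2 j (by omega)
      rw [show i + (j + 1) = i + 1 + j by ring, show k + (j + 1) = k + 1 + j by ring]
      exact this

theorem chkL_spec (m : ℕ) (c t : ℕ → ℕ) : ∀ (ts : List ℕ) (n N i k a b : ℕ),
    ts.length ≤ N → (∀ j < N, c (i + j) < 2 ^ 448) → (∀ j < ts.length, ts.getD j 0 = t (k + j)) →
    chkL m ts n (W c N i) a b = true →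
    (∀ j < ts.length, 100 * c (i + j) ≤ m * t (k + j)) ∧
      chkF m n (W c (N - ts.length) (i + ts.length)) a b = true
  | [], n, N, i, k, a, b, _, _, _, h => by
    refine ⟨fun j hj => absurd hj (Nat.not_lt_zero j), ?_⟩
    simpa [chkL] using h
  | s :: ts, n, 0, i, k, a, b, hN, _, _, _ => by simp at hN
  | s :: ts, n, N + 1, i, k, a, b, hN, hc, ht, h => by
    have h0 := hc 0 (by omega)
    rw [add_zero] at h0
    unfold chkL at h
    simp only [frc_eq, Bool.and_eq_true] at h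
    rw [W_land c N i h0, W_shift c N i h0] at h
    obtain ⟨h1, h2⟩ := h
    have h1' : 100 * c i ≤ m * s := Nat.le_of_ble_eq_true h1
    have ih := chkL_spec m c t ts n N (i + 1) (k + 1) a b (by simpa using hN)
      (fun j hj => by rw [show i + 1 + j = i + (j + 1) by ring]; exact hc _ (by omega))
      (fun j hj => by
        have := ht (j + 1) (by simpa using hj)
        rw [show k + 1 + j = k + (j + 1) by ring, ← this]; simp) h2
    refine ⟨fun j hj => ?_, ?_⟩
    · cases j with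
      | zero =>
        have := ht 0 (by simp)
        simp only [List.getD_cons_zero, add_zero] at this
        rw [add_zero, add_zero, ← this]; exact h1'
      | succ j =>
        rw [show i + (j + 1) = i + 1 + j by ring, show k + (j + 1) = k + 1 + j by ring]
        exact ih.1 j (by simpa using hj)
    · have := ih.2
      rw [List.length_cons, show N + 1 - (ts.length + 1) = N - ts.length by omega,
        show i + (ts.length + 1) = i + 1 + ts.length by ring]
      exact this

theorem W_of_cast (v : ℕ) (p : Polynomial ℕ)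
    (hv : ∀ (n : ℕ), n = 2 ^ (448 * 641) → (v : ZMod n) = ((p.eval (2 ^ 448) : ℕ) : ZMod n))
    (hB : ∀ j ≤ 640, p.coeff j < 2 ^ 448) : red v = W p.coeff 641 0 := by
  have h1 : v % 2 ^ (448 * 641) = p.eval (2 ^ 448) % 2 ^ (448 * 641) :=
    (ZMod.natCast_eq_natCast_iff' v _ _).mp (hv _ rfl)
  rw [red_eq, h1, Polynomial.eval_eq_sum_range' (n := 641 + (p.natDegree + 1)) (by omega),
    Finset.sum_range_add]
  have h2 : ∀ x ∈ range (p.natDegree + 1), p.coeff (641 + x) * (2 ^ 448) ^ (641 + x)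
      = 2 ^ (448 * 641) * (p.coeff (641 + x) * (2 ^ 448) ^ x) := by
    intro x _
    rw [pow_add, ← pow_mul 2 448 641]; ring
  rw [Finset.sum_congr rfl h2, ← Finset.mul_sum, Nat.add_mul_mod_self_left]
  have h3 : ∑ x ∈ range 641, p.coeff x * (2 ^ 448) ^ x = W p.coeff 641 0 := by
    unfold W; simp only [zero_add]
  rw [h3]
  apply Nat.mod_eq_of_lt
  have := W_lt p.coeff 641 0 (fun j hj => by rw [zero_add]; exact hB j (by omega))
  rwa [← pow_mul] at this

/-- from the check to the inequality -/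
theorem final (m : ℕ) (t : ℕ → ℕ) (h0 : ∀ g < 25, t g = tl25.getD g 0)
    (ht : ∀ g, 23 ≤ g → t (g + 2) = t (g + 1) + t g) (v : ℕ) (p : Polynomial ℕ)
    (hv : ∀ (n : ℕ), n = 2 ^ (448 * 641) → (v : ZMod n) = ((p.eval (2 ^ 448) : ℕ) : ZMod n))
    (hB : ∀ j ≤ 640, p.coeff j < 2 ^ 448)
    (hc : chkL m tl25 615 (Nat.shiftRight (red v) 448) 381253 619189 = true) :
    ∀ g, 1 ≤ g → g ≤ 640 → 100 * p.coeff g ≤ m * t (g - 1) := by
  rw [W_of_cast v p hv hB, W_shift _ _ _ (hB 0 (by omega))] at hc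
  have hlen : tl25.length = 25 := rfl
  have h1 := chkL_spec m p.coeff t tl25 615 640 (0 + 1) 0 381253 619189 (by rw [hlen]; omega)
    (fun j hj => hB _ (by omega)) (fun j hj => by rw [zero_add]; exact (h0 j hj).symm) hc
  rw [hlen] at h1
  have h23 := h0 23 (by norm_num)
  have h24 := h0 24 (by norm_num)
  have e23 : tl25.getD 23 0 = 143317 := rfl
  have e24 : tl25.getD 24 0 = 237936 := rfl
  have h25 : t 25 = 381253 := by rw [ht 23 (by norm_num), h23, h24, e23, e24]
  have h26 : t 26 = 619189 := by rw [ht 24 (by norm_num), h25, h24, e24]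
  have h2 := chkF_spec m p.coeff t ht 615 615 26 381253 619189 25 le_rfl
    (fun j hj => hB _ (by omega)) (by norm_num) h25.symm h26.symm h1.2
  intro g hg1 hg2
  by_cases hg : g ≤ 25
  · have := h1.1 (g - 1) (by omega)
    rwa [show 0 + 1 + (g - 1) = g by omega, zero_add] at this
  · have := h2 (g - 26) (by omega)
    rwa [show 26 + (g - 26) = g by omega, show 25 + (g - 26) = g - 1 by omega] at this

theorem hx_of {n : ℕ} (hn : n = 2 ^ (448 * 641)) : (BX (ZMod n)) ^ 641 = 0 := by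
  have : ((n : ℕ) : ZMod n) = 0 := ZMod.natCast_self n
  rw [BX, ← pow_mul]
  have h2 : ((2 ^ (448 * 641) : ℕ) : ZMod n) = 0 := by rw [← hn]; exact this
  rwa [Nat.cast_pow, Nat.cast_ofNat] at h2

theorem eval_EE (q N : ℕ) : (EE (Polynomial.X : Polynomial ℕ) q N).eval (2 ^ 448)
    = EE (2 ^ 448 : ℕ) q N := by
  have := map_EE (Polynomial.evalRingHom (2 ^ 448 : ℕ)) (Polynomial.X : Polynomial ℕ) q N
  rwa [Polynomial.coe_evalRingHom, Polynomial.eval_X] at this

theorem eval_E6 (N : ℕ) : (E6 (Polynomial.X : Polynomial ℕ) N).eval (2 ^ 448)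
    = E6 (2 ^ 448 : ℕ) N := by
  have := map_E6 (Polynomial.evalRingHom (2 ^ 448 : ℕ)) (Polynomial.X : Polynomial ℕ) N
  rwa [Polynomial.coe_evalRingHom, Polynomial.eval_X] at this

theorem cast_EE (n q N : ℕ) : ((EE (2 ^ 448 : ℕ) q N : ℕ) : ZMod n) = EE (BX (ZMod n)) q N := by
  have := map_EE (Nat.castRingHom (ZMod n)) (2 ^ 448 : ℕ) q N
  rw [map_pow, Nat.coe_castRingHom, Nat.cast_ofNat] at this
  exact this

theorem cast_E6 (n N : ℕ) : ((E6 (2 ^ 448 : ℕ) N : ℕ) : ZMod n) = E6 (BX (ZMod n)) N := by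
  have := map_E6 (Nat.castRingHom (ZMod n)) (2 ^ 448 : ℕ) N
  rw [map_pow, Nat.coe_castRingHom, Nat.cast_ofNat] at this
  exact this

end Helper8.NS
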