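import Pool.Agent.Helper8.NS.Alg

/-! Kernel-friendly count of the T-words ending in `3` (MODULE B for MP_56bc24_co). -/

namespace Helper8.NS

/-- generating function (evaluated at `b`) of the words `u` such that `p ++ u ++ [3]` is a T-word;
`m` is the mask of the positions of the letter `1` in `p`, `r` the reversed mask, `w = 2^|p|` -/
def hh (b : ℕ) : ℕ → ℕ → ℕ → ℕ → ℕ
  | 0, _, _, _ => 0
  | 1, _, _, _ => 0
  | 2, _, _, _ => 0
  | k + 3, m, r, w =>
    cond (Nat.beq (Nat.land m r) 0)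
      (frc (hh b (k + 2) (Nat.add m w) (Nat.succ (Nat.mul 2 r)) (Nat.mul 2 w)) fun y =>
        frc (hh b (k + 1) m (Nat.mul 2 r) (Nat.mul 2 w)) fun z =>
          Nat.mul b (Nat.add y (Nat.mul b (Nat.add z (Nat.mul b (Nat.succ z))))))
      (frc (hh b (k + 2) (Nat.add m w) (Nat.succ (Nat.mul 2 r)) (Nat.mul 2 w)) fun y =>
        frc (hh b (k + 1) m (Nat.mul 2 r) (Nat.mul 2 w)) fun z =>
          Nat.mul b (Nat.add y (Nat.mul b z)))

end Helper8.NS
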